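import Pool.Agent.Helper97.AS.Elim

/-!
# AS-11 Coset: few of the `B + C ^ p` are bad

`p` = the characteristic of `F`. `K ≤ 2 n + 1`. Let `S` be the set of the monic irreducible `v` of degree `> 2 n` with `v ∣ G A B`; for `C ∈ PN F K` the derivative of `B + C ^ p` is `B'`, so `G A (B + C ^ p) = G A B`. If `v ^ 2 ∣ dis A (B + C ^ p)` for an
irreducible `v` of degree `> 2 n` (take it monic: `normalize`, or multiply by a constant) then `v ∈ S` (`dvd_G`), and `card S ≤ 11` (`card_large_le` for every finite subset; `S` is finite: `S ⊆ ⋃ MN F i`, or work with the finset of the `v` chosen for the bad `C`).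
For fixed `v ∈ S` the `C ∈ PN F K` with `v ∣ dis A (B + C ^ p)` number at most `2`: for two of them, `C₁`, `C₂`: `27 ((B + C₁ ^ p) ^ 2 - (B + C₂ ^ p) ^ 2)` is divisible by `v`, so `v ∣ C₁ ^ p - C₂ ^ p = (C₁ - C₂) ^ p`, i.e. `v ∣ C₁ - C₂`,
`C₁ = C₂` (degree `< K ≤ 2 n + 1 ≤ deg v`), or `v ∣ 2 B + C₁ ^ p + C₂ ^ p`. With three different `C₁`, `C₂`, `C₃`: the second holds for all three pairs, so `v ∣ C₂ ^ p - C₃ ^ p`, a contradiction. So at most `22` of the `C` are bad.
-/

set_option autoImplicit false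

open Polynomial

namespace Pool.Agent.Helper97.AS

open Pool.Agent.Helper31.AR

variable {F : Type} [Field F] [Fintype F]

private theorem eq_of_dvd_pow {p : ℕ} {n K : ℕ} (hK : K ≤ 2 * n + 1) {v a b : F[X]}
    (hv : Irreducible v) (hd : 2 * n < v.natDegree) (ha : a ∈ PN F K) (hb : b ∈ PN F K)
    (h : v ∣ (a - b) ^ p) : a = b := by
  have h1 : v ∣ a - b := hv.prime.dvd_of_dvd_pow h
  have h2 : a - b ∈ PN F K := sub_mem_PN ha hb
  rw [mem_PN] at h2
  by_contra hne
  have h3 : a - b ≠ 0 := sub_ne_zero.mpr hne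
  have h4 := natDegree_le_of_dvd h1 h3
  rw [degree_eq_natDegree h3] at h2
  have h5 : (a - b).natDegree < K := by exact_mod_cast h2
  omega

private theorem pair_dvd (h3 : (3 : F) ≠ 0) {p : ℕ} [Fact p.Prime] [CharP F p]
    {n K : ℕ} (hK : K ≤ 2 * n + 1) {A B v a b : F[X]}
    (hv : Irreducible v) (hd : 2 * n < v.natDegree) (ha : a ∈ PN F K) (hb : b ∈ PN F K)
    (hne : a ≠ b) (hva : v ^ 2 ∣ dis A (B + a ^ p)) (hvb : v ^ 2 ∣ dis A (B + b ^ p)) :
    v ∣ 2 * B + a ^ p + b ^ p := by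
  have h1 : v ∣ dis A (B + a ^ p) := dvd_trans (dvd_pow_self v two_ne_zero) hva
  have h2 : v ∣ dis A (B + b ^ p) := dvd_trans (dvd_pow_self v two_ne_zero) hvb
  have h4 : v ∣ 27 * ((a - b) ^ p * (2 * B + a ^ p + b ^ p)) := by
    have h5 := dvd_sub h1 h2
    have h6 : dis A (B + a ^ p) - dis A (B + b ^ p) =
        27 * ((a - b) ^ p * (2 * B + a ^ p + b ^ p)) := by
      rw [sub_pow_char]
      unfold dis
      ring
    rwa [h6] at h5
  rcases hv.prime.dvd_or_dvd h4 with h5 | h5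
  · exfalso
    have h6 : IsUnit (27 : F[X]) := by
      have e : (27 : F[X]) = C (27 : F) := (map_ofNat C 27).symm
      rw [e, isUnit_C, isUnit_iff_ne_zero]
      have : (27 : F) = 3 ^ 3 := by norm_num
      rw [this]
      exact pow_ne_zero 3 h3
    exact hv.not_isUnit (isUnit_of_dvd_unit h5 h6)
  · rcases hv.prime.dvd_or_dvd h5 with h6 | h6
    · exact absurd (eq_of_dvd_pow hK hv hd ha hb h6) hne
    · exact h6

open Classical in
theorem card_coset_le (h2 : (2 : F) ≠ 0) (h3 : (3 : F) ≠ 0) {p : ℕ} [Fact p.Prime] [CharP F p]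
    {n K : ℕ} (hK : K ≤ 2 * n + 1) {A B : F[X]} (hA : A.natDegree ≤ 4 * n + 1)
    (hB : B.natDegree ≤ 6 * n + 1) (hG : G A B ≠ 0) :
    ((PN F K).filter (fun c => ∃ v : F[X], Irreducible v ∧ 2 * n < v.natDegree ∧
      v ^ 2 ∣ dis A (B + c ^ p))).card ≤ 22 := by
  set S := (PN F K).filter (fun c => ∃ v : F[X], Irreducible v ∧ 2 * n < v.natDegree ∧
      v ^ 2 ∣ dis A (B + c ^ p)) with hS
  -- monic choice
  have hmon : ∀ c ∈ S, ∃ v : F[X], v.Monic ∧ Irreducible v ∧ 2 * n < v.natDegree ∧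
      v ^ 2 ∣ dis A (B + c ^ p) := by
    intro c hc
    obtain ⟨v, hv, hd, hdvd⟩ := (Finset.mem_filter.mp hc).2
    have hlc : v.leadingCoeff ≠ 0 := leadingCoeff_ne_zero.mpr hv.ne_zero
    have hu : IsUnit (C (v.leadingCoeff)⁻¹ : F[X]) := by
      rw [isUnit_C, isUnit_iff_ne_zero]
      exact inv_ne_zero hlc
    refine ⟨v * C (v.leadingCoeff)⁻¹, monic_mul_leadingCoeff_inv hv.ne_zero, ?_, ?_, ?_⟩
    · exact (irreducible_mul_isUnit hu).mpr hv
    · rw [natDegree_mul_leadingCoeff_inv v hv.ne_zero]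
      exact hd
    · rw [mul_pow]
      exact (IsUnit.mul_right_dvd (hu.pow 2)).mpr hdvd
  choose! w hw using hmon
  have hder : ∀ c : F[X], G A (B + c ^ p) = G A B := by
    intro c
    have h4 : derivative (B + c ^ p) = derivative B := by
      rw [derivative_add, derivative_pow]
      have : ((p : ℕ) : F) = 0 := CharP.cast_eq_zero F p
      rw [this]
      simp
    unfold G
    rw [h4]
  have hT : (S.image w).card ≤ 11 := by
    apply card_large_le hG (natDegree_G_le hA hB)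
    intro v hv
    obtain ⟨c, hc, rfl⟩ := Finset.mem_image.mp hv
    obtain ⟨h4, h5, h6, h7⟩ := hw c hc
    refine ⟨h4, h5, h6, ?_⟩
    rw [← hder c]
    exact dvd_G h2 h3 h7
  have hfib : ∀ b ∈ S.image w, (S.filter (fun a => w a = b)).card ≤ 2 := by
    intro b _
    by_contra hcon
    push Not at hcon
    obtain ⟨x, hx, y, hy, z, hz, hxy, hxz, hyz⟩ := Finset.two_lt_card.mp hcon
    rw [Finset.mem_filter] at hx hy hz
    have hxS := hw x hx.1
    have hyS := hw y hy.1
    have hzS := hw z hz.1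
    rw [hx.2] at hxS
    rw [hy.2] at hyS
    rw [hz.2] at hzS
    have hxP := (Finset.mem_filter.mp hx.1).1
    have hyP := (Finset.mem_filter.mp hy.1).1
    have hzP := (Finset.mem_filter.mp hz.1).1
    have e1 := pair_dvd h3 hK hxS.2.1 hxS.2.2.1 hxP hyP hxy hxS.2.2.2 hyS.2.2.2
    have e2 := pair_dvd h3 hK hxS.2.1 hxS.2.2.1 hxP hzP hxz hxS.2.2.2 hzS.2.2.2
    have e3 : b ∣ (y - z) ^ p := by
      have h4 := dvd_sub e1 e2
      have h5 : 2 * B + x ^ p + y ^ p - (2 * B + x ^ p + z ^ p) = (y - z) ^ p := by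
        rw [sub_pow_char]
        ring
      rwa [h5] at h4
    exact hyz (eq_of_dvd_pow hK hxS.2.1 hxS.2.2.1 hyP hzP e3)
  calc S.card ≤ 2 * (S.image w).card := Finset.card_le_mul_card_image S 2 hfib
    _ ≤ 2 * 11 := Nat.mul_le_mul_left 2 hT
    _ = 22 := rfl

end Pool.Agent.Helper97.AS
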