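import Pool.Agent.Helper97.AS.IrrCount

/-!
# AS-09 IrrSum: the sum of the local densities (short)

`q ≥ 5`, `u_d` = the number of the monic irreducible polynomials of degree `d`. `u_1 ≤ q`, `u_2 ≤ (q ^ 2 - q) / 2`, `u_d ≤ q ^ d / d ≤ q ^ d / 3` for `d ≥ 3` (`irr_mul_le`, `irr_two_le`). Each term is at most
`d = 1`: `q (2 / q ^ 2 - 1 / q ^ 3) = 2 / q - 1 / q ^ 2` (the factor `(2 q - 1) / q ^ 3` is positive), `d = 2`: `((q ^ 2 - q) / 2) (2 / q ^ 4) = 1 / q ^ 2 - 1 / q ^ 3` (drop `- 1`), `d ≥ 3`: `(q ^ d / 3) (2 / q ^ (2 d)) = (2 / 3) q ^ (- d)`, and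
`∑_{d ≥ 3} q ^ (- d) ≤ q ^ (-3) / (1 - 1 / q) ≤ (5 / 4) q ^ (-3)`. Total `≤ 2 / q - q ^ (-3) + (5 / 6) q ^ (-3) = 2 / q - (1 / 6) q ^ (-3)`.
Induction on `D ≥ 2` with the bound `2 / q - 1 / (6 q ^ 3) - (5 / (6 q)) q ^ (- D)` (equality to `2 / q - 1 / q ^ 3` for `D = 2`).
-/

set_option autoImplicit false

open Polynomial

namespace Pool.Agent.Helper97.AS

open Pool.Agent.Helper31.AR

variable (F : Type) [Field F] [Fintype F]

/-- the numerical part -/
theorem irr_sum_aux {q : ℝ} (hq : 5 ≤ q) (u : ℕ → ℝ) (h1 : u 1 ≤ q)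
    (h2 : 2 * u 2 + q ≤ q ^ 2) (h3 : ∀ d : ℕ, 1 ≤ d → (d : ℝ) * u d ≤ q ^ d) (h0 : ∀ d, 0 ≤ u d)
    (D : ℕ) : ∑ d ∈ Finset.Icc 1 D, u d * ((2 * q ^ d - 1) / q ^ (3 * d)) ≤
      2 / q - 1 / (6 * q ^ 3) := by
  have hq0 : 0 < q := by linarith
  have t1 : u 1 * ((2 * q ^ 1 - 1) / q ^ (3 * 1)) ≤ 2 / q - 1 / q ^ 2 := by
    have e : 2 / q - 1 / q ^ 2 = q * ((2 * q ^ 1 - 1) / q ^ (3 * 1)) := by
      field_simp
      ring
    rw [e]
    refine mul_le_mul_of_nonneg_right h1 (div_nonneg (by linarith) (by positivity))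
  have t2 : u 2 * ((2 * q ^ 2 - 1) / q ^ (3 * 2)) ≤ 1 / q ^ 2 - 1 / q ^ 3 := by
    have e : 1 / q ^ 2 - 1 / q ^ 3 = ((q ^ 2 - q) / 2) * ((2 * q ^ 2) / q ^ (3 * 2)) := by
      field_simp
      ring
    rw [e]
    refine mul_le_mul (by linarith) ?_ (div_nonneg (by nlinarith) (by positivity))
      (by nlinarith)
    exact div_le_div_of_nonneg_right (by linarith) (by positivity)
  have key : ∀ D, 2 ≤ D → ∑ d ∈ Finset.Icc 1 D, u d * ((2 * q ^ d - 1) / q ^ (3 * d)) ≤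
      2 / q - 1 / (6 * q ^ 3) - 5 / (6 * q ^ (D + 1)) := by
    intro D hD
    induction D, hD using Nat.le_induction with
    | base =>
      rw [show Finset.Icc 1 2 = {1, 2} from rfl, Finset.sum_pair (by norm_num)]
      have e : 2 / q - 1 / (6 * q ^ 3) - 5 / (6 * q ^ (2 + 1)) =
          (2 / q - 1 / q ^ 2) + (1 / q ^ 2 - 1 / q ^ 3) := by
        field_simp
        ring
      rw [e]
      exact add_le_add t1 t2
    | succ D hD ih =>
      rw [Finset.sum_Icc_succ_top (by omega)]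
      have hD' : (3 : ℝ) ≤ ((D + 1 : ℕ) : ℝ) := by exact_mod_cast (by omega : 3 ≤ D + 1)
      have h4 : u (D + 1) ≤ q ^ (D + 1) / 3 := by
        rw [le_div_iff₀ (by norm_num)]
        have h5 := h3 (D + 1) (by omega)
        have h6 := mul_le_mul_of_nonneg_right hD' (h0 (D + 1))
        linarith
      have hp : 0 < q ^ (D + 1) := by positivity
      have t3 : u (D + 1) * ((2 * q ^ (D + 1) - 1) / q ^ (3 * (D + 1))) ≤
          (q ^ (D + 1) / 3) * ((2 * q ^ (D + 1)) / q ^ (3 * (D + 1))) := by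
        refine mul_le_mul h4 ?_ (div_nonneg ?_ (by positivity)) (by positivity)
        · exact div_le_div_of_nonneg_right (by linarith) (by positivity)
        · have : 1 ≤ q ^ (D + 1) := one_le_pow₀ (by linarith)
          linarith
      have e3 : (q ^ (D + 1) / 3) * ((2 * q ^ (D + 1)) / q ^ (3 * (D + 1))) =
          2 / 3 / q ^ (D + 1) := by
        rw [show q ^ (3 * (D + 1)) = q ^ (D + 1) * q ^ (D + 1) * q ^ (D + 1) by ring]
        field_simp
      rw [e3] at t3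
      have h7 : 2 / 3 / q ^ (D + 1) + 5 / (6 * q ^ (D + 1 + 1)) ≤ 5 / (6 * q ^ (D + 1)) := by
        have e4 : 5 / (6 * q ^ (D + 1)) - (2 / 3 / q ^ (D + 1) + 5 / (6 * q ^ (D + 1 + 1))) =
            (q - 5) / (6 * q ^ (D + 1 + 1)) := by
          rw [pow_succ q (D + 1)]
          field_simp
          ring
        have h8 : 0 ≤ (q - 5) / (6 * q ^ (D + 1 + 1)) := div_nonneg (by linarith) (by positivity)
        linarith
      linarith
  rcases Nat.lt_or_ge D 2 with hD | hD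
  · have h4 : 1 / (6 * q ^ 3) ≤ 1 / q ^ 2 := by
      refine one_div_le_one_div_of_le (by positivity) ?_
      nlinarith [pow_pos hq0 2]
    have h5 : 1 / q ^ 2 ≤ 2 / q := by
      rw [div_le_div_iff₀ (by positivity) hq0]
      nlinarith
    interval_cases D
    · rw [Finset.Icc_eq_empty (by norm_num), Finset.sum_empty]
      linarith
    · rw [Finset.Icc_self, Finset.sum_singleton]
      linarith
  · have h4 : 0 ≤ 5 / (6 * q ^ (D + 1)) := by positivity
    have h5 := key D hD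
    linarith

open Classical in
theorem irr_sum_le (hq : 5 ≤ Fintype.card F) (D : ℕ) :
    ∑ d ∈ Finset.Icc 1 D, (((MN F d).filter (fun v => Irreducible v)).card : ℝ) *
        ((2 * (Fintype.card F : ℝ) ^ d - 1) / (Fintype.card F : ℝ) ^ (3 * d)) ≤
      2 / (Fintype.card F : ℝ) - 1 / (6 * (Fintype.card F : ℝ) ^ 3) := by
  refine irr_sum_aux (q := (Fintype.card F : ℝ)) (by exact_mod_cast hq)
    (fun d => (((MN F d).filter (fun v => Irreducible v)).card : ℝ)) ?_ ?_ ?_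
    (fun d => Nat.cast_nonneg _) D
  · have h := irr_mul_le F (m := 1) le_rfl
    rw [one_mul, pow_one] at h
    exact_mod_cast h
  · exact_mod_cast irr_two_le F
  · intro d hd
    exact_mod_cast irr_mul_le F hd

end Pool.Agent.Helper97.AS
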