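import Pool.Agent.Helper97.AS.Elim
import Pool.Agent.Helper31.AR.Residue

/-!
# AS-12 GZero: the pairs with `G A B = 0`

`p ≥ 5` the characteristic of `F` (`2 ≠ 0`, `3 ≠ 0`). `G A B = 0` iff `A = 0` or `3 B' ^ 2 + A A' ^ 2 = 0` (`F[X]` is a domain).
* `A = 0`: `q ^ (6 n + 2)` pairs.
* For every `A ∈ PN F (4 n + 2)`: if `B`, `B₁ ∈ PN F (6 n + 2)` both satisfy `3 B' ^ 2 = - A A' ^ 2` then `B' = ± B₁'`, so `B ∓ B₁` has derivative `0`. The `B ∈ PN F (6 n + 2)` with derivative `0` have only coefficients at exponents divisible by `p ≥ 5`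
  (`coeff_derivative`: `(j + 1) b_(j + 1) = 0`), so their number is at most `q ^ ((6 n + 1) / 5 + 1) ≤ q ^ (2 n + 2)` (injective map to `Fin ((6 n + 1) / 5 + 1) → F`, `i ↦ coeff (p i)`; or by `card ≤` of an image). So for each `A` there are at most
  `2 q ^ (2 n + 2)` polynomials `B`.
Total: `≤ q ^ (6 n + 2) + 2 q ^ (6 n + 4) ≤ 3 q ^ (6 n + 4)`.
-/

set_option autoImplicit false

open Polynomial

namespace Pool.Agent.Helper97.AS

open Pool.Agent.Helper31.AR

variable {F : Type} [Field F] [Fintype F]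

open Classical in
private theorem card_deriv_zero_le (h2 : (2 : F) ≠ 0) (h3 : (3 : F) ≠ 0) (n : ℕ) :
    ((PN F (6 * n + 2)).filter (fun B => derivative B = 0)).card ≤
      Fintype.card F ^ (2 * n + 2) := by
  obtain ⟨p, hp⟩ := CharP.exists F
  have hprime : p.Prime := by
    rcases CharP.char_is_prime_or_zero F p with h | h
    · exact h
    · exfalso
      subst h
      haveI : CharZero F := CharP.charP_to_charZero F
      exact not_finite F
  have hp5 : 5 ≤ p := by
    have hp2 : p ≠ 2 := by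
      rintro rfl
      exact h2 (by exact_mod_cast CharP.cast_eq_zero F 2)
    have hp3 : p ≠ 3 := by
      rintro rfl
      exact h3 (by exact_mod_cast CharP.cast_eq_zero F 3)
    have hp4 : p ≠ 4 := by
      rintro rfl
      revert hprime
      decide
    have := hprime.two_le
    omega
  have hcard : Fintype.card (Fin (2 * n + 2) → F) = Fintype.card F ^ (2 * n + 2) := by
    rw [Fintype.card_fun, Fintype.card_fin]
  rw [← hcard, ← Finset.card_univ]
  apply Finset.card_le_card_of_injOn (fun B => fun i : Fin (2 * n + 2) => B.coeff (p * (i : ℕ)))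
    (fun B _ => Finset.mem_coe.2 (Finset.mem_univ _))
  intro B hB B₁ hB₁ heq
  rw [Finset.mem_coe, Finset.mem_filter, mem_PN_iff_natDegree (by omega)] at hB hB₁
  have hz : ∀ C : F[X], derivative C = 0 → ∀ j, ¬ p ∣ j → C.coeff j = 0 := by
    intro C hC j hj
    rcases j with _ | j
    · exact absurd (dvd_zero p) hj
    · have h4 := coeff_derivative C j
      rw [hC, coeff_zero] at h4
      have h5 : ((j : F) + 1) ≠ 0 := by
        intro h6
        apply hj
        have h7 : (((j + 1 : ℕ) : F)) = 0 := by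
          push_cast
          exact h6
        exact (CharP.cast_eq_zero_iff F p (j + 1)).1 h7
      exact (mul_eq_zero.1 h4.symm).resolve_right h5
  ext j
  by_cases hj : p ∣ j
  · obtain ⟨i, rfl⟩ := hj
    by_cases hi : i < 2 * n + 2
    · exact congrFun heq ⟨i, hi⟩
    · have h6 : 5 * i ≤ p * i := Nat.mul_le_mul_right _ hp5
      rw [coeff_eq_zero_of_natDegree_lt (by omega), coeff_eq_zero_of_natDegree_lt (by omega)]
  · rw [hz B hB.2 j hj, hz B₁ hB₁.2 j hj]

open Classical in
private theorem card_fibre_le (h2 : (2 : F) ≠ 0) (h3 : (3 : F) ≠ 0) (n : ℕ) (A : F[X])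
    (hA : A ≠ 0) :
    ((PN F (6 * n + 2)).filter (fun B => G A B = 0)).card ≤
      2 * Fintype.card F ^ (2 * n + 2) := by
  have h3' : (3 : F[X]) ≠ 0 := by
    rw [show (3 : F[X]) = C 3 from (map_ofNat C 3).symm]
    exact fun h => h3 (C_eq_zero.1 h)
  have hG : ∀ B : F[X], G A B = 0 ↔ 3 * (derivative B) ^ 2 + A * (derivative A) ^ 2 = 0 := by
    intro B
    unfold G
    rw [mul_eq_zero, or_iff_right (pow_ne_zero 3 hA)]
  rcases ((PN F (6 * n + 2)).filter (fun B => G A B = 0)).eq_empty_or_nonempty with h | ⟨B₀, hB₀⟩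
  · rw [h]
    simp
  rw [Finset.mem_filter, hG] at hB₀
  obtain ⟨K, hK⟩ : ∃ K, K = (PN F (6 * n + 2)).filter (fun B => derivative B = 0) := ⟨_, rfl⟩
  have hsub : (PN F (6 * n + 2)).filter (fun B => G A B = 0) ⊆
      K.image (fun B => B₀ + B) ∪ K.image (fun B => -B₀ + B) := by
    intro B hB
    rw [Finset.mem_filter, hG] at hB
    have h4 : 3 * ((derivative B - derivative B₀) * (derivative B + derivative B₀)) = 0 := by
      linear_combination hB.2 - hB₀.2
    have h5 := (mul_eq_zero.1 h4).resolve_left h3'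
    rw [Finset.mem_union, Finset.mem_image, Finset.mem_image]
    rcases mul_eq_zero.1 h5 with h6 | h6
    · left
      refine ⟨B - B₀, ?_, by ring⟩
      rw [hK, Finset.mem_filter]
      refine ⟨sub_mem_PN hB.1 hB₀.1, ?_⟩
      rw [derivative_sub]
      exact h6
    · right
      refine ⟨B + B₀, ?_, by ring⟩
      rw [hK, Finset.mem_filter]
      refine ⟨add_mem_PN hB.1 hB₀.1, ?_⟩
      rw [derivative_add]
      exact h6
  have hKc : K.card ≤ Fintype.card F ^ (2 * n + 2) := by
    rw [hK]
    exact card_deriv_zero_le h2 h3 n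
  calc ((PN F (6 * n + 2)).filter (fun B => G A B = 0)).card
      ≤ (K.image (fun B => B₀ + B) ∪ K.image (fun B => -B₀ + B)).card := Finset.card_le_card hsub
    _ ≤ (K.image (fun B => B₀ + B)).card + (K.image (fun B => -B₀ + B)).card :=
        Finset.card_union_le _ _
    _ ≤ K.card + K.card := Nat.add_le_add Finset.card_image_le Finset.card_image_le
    _ ≤ 2 * Fintype.card F ^ (2 * n + 2) := by omega

open Classical in
theorem card_G_zero_le (h2 : (2 : F) ≠ 0) (h3 : (3 : F) ≠ 0) (n : ℕ) :
    ((box F n).filter (fun p => G p.1 p.2 = 0)).card ≤ 3 * Fintype.card F ^ (6 * n + 4) := by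
  have hq : 1 ≤ Fintype.card F := Fintype.card_pos
  have h1 : ((box F n).filter (fun p => G p.1 p.2 = 0)).card =
      ∑ A ∈ PN F (4 * n + 2), ((PN F (6 * n + 2)).filter (fun B => G A B = 0)).card := by
    unfold box
    rw [Finset.card_filter, Finset.sum_product]
    refine Finset.sum_congr rfl fun A _ => ?_
    rw [Finset.card_filter]
  rw [h1, ← Finset.add_sum_erase _ _ (zero_mem_PN (F := F) (4 * n + 2))]
  have h4 : ((PN F (6 * n + 2)).filter (fun B => G 0 B = 0)).card ≤
      Fintype.card F ^ (6 * n + 2) := by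
    rw [← card_PN (F := F) (6 * n + 2)]
    exact Finset.card_filter_le _ _
  have h5 : ∑ A ∈ (PN F (4 * n + 2)).erase 0,
      ((PN F (6 * n + 2)).filter (fun B => G A B = 0)).card ≤
      Fintype.card F ^ (4 * n + 2) * (2 * Fintype.card F ^ (2 * n + 2)) := by
    calc ∑ A ∈ (PN F (4 * n + 2)).erase 0,
        ((PN F (6 * n + 2)).filter (fun B => G A B = 0)).card
        ≤ ∑ A ∈ (PN F (4 * n + 2)).erase 0, 2 * Fintype.card F ^ (2 * n + 2) := by
          refine Finset.sum_le_sum fun A hA => ?_
          exact card_fibre_le h2 h3 n A (Finset.ne_of_mem_erase hA)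
      _ = ((PN F (4 * n + 2)).erase 0).card * (2 * Fintype.card F ^ (2 * n + 2)) := by
          rw [Finset.sum_const, smul_eq_mul]
      _ ≤ Fintype.card F ^ (4 * n + 2) * (2 * Fintype.card F ^ (2 * n + 2)) := by
          apply Nat.mul_le_mul_right
          rw [← card_PN (F := F) (4 * n + 2)]
          exact Finset.card_erase_le
  have h6 : Fintype.card F ^ (4 * n + 2) * (2 * Fintype.card F ^ (2 * n + 2)) =
      2 * Fintype.card F ^ (6 * n + 4) := by ring
  have h7 : Fintype.card F ^ (6 * n + 2) ≤ Fintype.card F ^ (6 * n + 4) :=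
    Nat.pow_le_pow_right hq (by omega)
  rw [h6] at h5
  omega

end Pool.Agent.Helper97.AS
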