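import Pool.Agent.Helper97.AS.Coset
import Pool.Agent.Helper97.AS.GZero

/-!
# AS-13 LargeCount: almost no pair has a large prime whose square divides `dis A B`

`p` = the characteristic, `p ≥ 5`; `K` with `p (K - 1) ≤ 6 n + 1` and `K ≤ 2 n + 1`, e.g. `K = n / p + 1` (then `p (K - 1) ≤ n`). For `c ∈ PN F K`: `c ^ p ∈ PN F (6 n + 2)` (degree `≤ p (K - 1)`). Let `bad A B` be the property of the left side. Translation invariance (`sum_PN_add`): for every `c`
`#{(A, B) : bad A B} = #{(A, B) : bad A (B + c ^ p)}`. Sum over `c ∈ PN F K` (`q ^ K` of them) and exchange: `q ^ K #bad = ∑_{(A, B)} #{c : bad A (B + c ^ p)} ≤ 22 q ^ (10 n + 4) + q ^ K #{(A, B) : G A B = 0}` (`card_coset_le`, `card_G_zero_le`).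
So `#bad ≤ 22 q ^ (10 n + 4) / q ^ K + 3 q ^ (6 n + 4)`, and for large `n` (`K → ∞`) this is at most `δ q ^ (10 n + 4)`.
-/

set_option autoImplicit false

open Polynomial

namespace Pool.Agent.Helper97.AS

open Pool.Agent.Helper31.AR

/-- the property of the left side -/
private def lrgBad {F : Type} [Field F] (n : ℕ) (A B : F[X]) : Prop :=
  ∃ v : F[X], Irreducible v ∧ 2 * n < v.natDegree ∧ v ^ 2 ∣ dis A B

open Classical in
private theorem lrg_shift {F : Type} [Field F] [Fintype F] (n : ℕ) {g : F[X]}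
    (hg : g ∈ PN F (6 * n + 2)) :
    ((box F n).filter (fun p => lrgBad n p.1 p.2)).card =
      ∑ A ∈ PN F (4 * n + 2), ∑ B ∈ PN F (6 * n + 2), if lrgBad n A (B + g) then 1 else 0 := by
  rw [Finset.card_filter, box, Finset.sum_product]
  refine Finset.sum_congr rfl fun A _ => ?_
  exact (sum_PN_add hg (fun B => if lrgBad n A B then 1 else 0)).symm

open Classical in
private theorem lrg_count {F : Type} [Field F] [Fintype F] (h2 : (2 : F) ≠ 0) (h3 : (3 : F) ≠ 0)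
    {p : ℕ} [Fact p.Prime] [CharP F p] (n K : ℕ) (hK : K ≤ 2 * n + 1) (hpK : p * (K - 1) ≤ 6 * n + 1) :
    Fintype.card F ^ K * ((box F n).filter (fun p => lrgBad n p.1 p.2)).card ≤
      Fintype.card F ^ K * (3 * Fintype.card F ^ (6 * n + 4)) +
        22 * Fintype.card F ^ (10 * n + 4) := by
  have hmem : ∀ c ∈ PN F K, c ^ p ∈ PN F (6 * n + 2) := by
    intro c hc
    rw [mem_PN_iff_natDegree (by omega)]
    by_cases hK0 : K = 0
    · rw [mem_PN, hK0] at hc
      have hc0 : c = 0 := by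
        by_contra h
        have h1 := zero_le_degree_iff.2 h
        exact absurd (lt_of_le_of_lt h1 hc) (by simp)
      rw [hc0, zero_pow (Fact.out : p.Prime).ne_zero, natDegree_zero]
      omega
    · rw [mem_PN_iff_natDegree (by omega)] at hc
      have h1 : (c ^ p).natDegree ≤ p * c.natDegree := natDegree_pow_le
      have h3 : p * c.natDegree ≤ p * (K - 1) := Nat.mul_le_mul_left _ (by omega)
      omega
  have h1 : Fintype.card F ^ K * ((box F n).filter (fun p => lrgBad n p.1 p.2)).card =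
      ∑ A ∈ PN F (4 * n + 2), ∑ B ∈ PN F (6 * n + 2), ∑ c ∈ PN F K,
        if lrgBad n A (B + c ^ p) then 1 else 0 := by
    rw [← card_PN (F := F) K, ← smul_eq_mul, ← Finset.sum_const,
      Finset.sum_congr rfl (fun c hc => lrg_shift n (hmem c hc)), Finset.sum_comm]
    refine Finset.sum_congr rfl fun A _ => ?_
    rw [Finset.sum_comm]
  have h4 : ∀ A ∈ PN F (4 * n + 2), ∀ B ∈ PN F (6 * n + 2), (∑ c ∈ PN F K,
        if lrgBad n A (B + c ^ p) then 1 else 0) ≤
      Fintype.card F ^ K * (if G A B = 0 then 1 else 0) + 22 := by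
    intro A hA B hB
    rw [← Finset.card_filter]
    by_cases hG : G A B = 0
    · rw [if_pos hG, mul_one]
      have h5 := Finset.card_filter_le (PN F K) (fun c => lrgBad n A (B + c ^ p))
      rw [card_PN] at h5
      omega
    · rw [if_neg hG, mul_zero, zero_add]
      rw [mem_PN_iff_natDegree (by omega)] at hA hB
      exact card_coset_le h2 h3 (p := p) hK (by omega) (by omega) hG
  rw [h1]
  calc ∑ A ∈ PN F (4 * n + 2), ∑ B ∈ PN F (6 * n + 2), ∑ c ∈ PN F K,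
        (if lrgBad n A (B + c ^ p) then 1 else 0)
      ≤ ∑ A ∈ PN F (4 * n + 2), ∑ B ∈ PN F (6 * n + 2),
          (Fintype.card F ^ K * (if G A B = 0 then 1 else 0) + 22) :=
        Finset.sum_le_sum fun A hA => Finset.sum_le_sum fun B hB => h4 A hA B hB
    _ = ∑ x ∈ box F n, (Fintype.card F ^ K * (if G x.1 x.2 = 0 then 1 else 0) + 22) := by
        rw [box, Finset.sum_product]
    _ = Fintype.card F ^ K * ((box F n).filter (fun x => G x.1 x.2 = 0)).card +
          22 * Fintype.card F ^ (10 * n + 4) := by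
        rw [Finset.sum_add_distrib, ← Finset.mul_sum, ← Finset.card_filter, Finset.sum_const,
          box, Finset.card_product, card_PN, card_PN, ← pow_add, smul_eq_mul,
          show 4 * n + 2 + (6 * n + 2) = 10 * n + 4 by ring, mul_comm 22]
    _ ≤ Fintype.card F ^ K * (3 * Fintype.card F ^ (6 * n + 4)) +
          22 * Fintype.card F ^ (10 * n + 4) :=
        Nat.add_le_add_right (Nat.mul_le_mul_left _ (card_G_zero_le h2 h3 n)) _

open Classical in
theorem large_count (F : Type) [Field F] [Fintype F] (h2 : (2 : F) ≠ 0) (h3 : (3 : F) ≠ 0)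
    (δ : ℝ) (hδ : 0 < δ) :
    ∃ n₀ : ℕ, ∀ n : ℕ, n₀ ≤ n →
      (((box F n).filter (fun p => ∃ v : F[X], Irreducible v ∧ 2 * n < v.natDegree ∧
        v ^ 2 ∣ dis p.1 p.2)).card : ℝ) ≤ δ * (Fintype.card F : ℝ) ^ (10 * n + 4) := by
  obtain ⟨p, hp⟩ := CharP.exists F
  have : Fact p.Prime := ⟨CharP.char_is_prime F p⟩
  have hp0 : 0 < p := (Fact.out : p.Prime).pos
  obtain ⟨M, hM⟩ := exists_nat_ge (44 / δ)
  refine ⟨p * M, fun n hn => ?_⟩
  have hnM : M ≤ n / p := by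
    rw [Nat.le_div_iff_mul_le hp0, mul_comm]
    exact hn
  have hnM' : M ≤ n := hnM.trans (Nat.div_le_self n p)
  have hK1 : n / p + 1 ≤ 2 * n + 1 := by
    have := Nat.div_le_self n p
    omega
  have hK2 : p * (n / p + 1 - 1) ≤ 6 * n + 1 := by
    rw [Nat.add_sub_cancel]
    have := Nat.mul_div_le n p
    omega
  have h := lrg_count h2 h3 (p := p) n (n / p + 1) hK1 hK2
  set q := Fintype.card F with hq
  have hq2 : 2 ≤ q := Fintype.one_lt_card
  set K := n / p + 1 with hK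
  set b := ((box F n).filter (fun p => lrgBad n p.1 p.2)).card with hb
  have hR : (q : ℝ) ^ K * b ≤ (q : ℝ) ^ K * (3 * (q : ℝ) ^ (6 * n + 4)) +
      22 * (q : ℝ) ^ (10 * n + 4) := by exact_mod_cast h
  have hqR : (0 : ℝ) < q := by
    have : 0 < q := by omega
    exact_mod_cast this
  have hqK : (M : ℝ) ≤ (q : ℝ) ^ K := by
    have h5 : K < 2 ^ K := Nat.lt_two_pow_self
    have h6 : 2 ^ K ≤ q ^ K := Nat.pow_le_pow_left hq2 K
    have h7 : M ≤ q ^ K := by omega
    exact_mod_cast h7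
  have hq4 : (M : ℝ) ≤ (q : ℝ) ^ (4 * n) := by
    have h5 : 4 * n < 2 ^ (4 * n) := Nat.lt_two_pow_self
    have h6 : 2 ^ (4 * n) ≤ q ^ (4 * n) := Nat.pow_le_pow_left hq2 _
    have h7 : M ≤ q ^ (4 * n) := by omega
    exact_mod_cast h7
  have h44 : 44 ≤ δ * M := by
    have h5 : δ * (44 / δ) ≤ δ * M := mul_le_mul_of_nonneg_left hM hδ.le
    rwa [mul_div_cancel₀ _ hδ.ne'] at h5
  have hKpos : (0 : ℝ) < (q : ℝ) ^ K := by positivity
  have hNpos : (0 : ℝ) < (q : ℝ) ^ (10 * n + 4) := by positivity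
  have hN : (q : ℝ) ^ (10 * n + 4) = (q : ℝ) ^ (4 * n) * (q : ℝ) ^ (6 * n + 4) := by
    rw [← pow_add]
    congr 1
    ring
  have b1 : 3 * (q : ℝ) ^ (6 * n + 4) ≤ δ / 2 * (q : ℝ) ^ (10 * n + 4) := by
    rw [hN]
    have h5 : (0 : ℝ) < (q : ℝ) ^ (6 * n + 4) := by positivity
    have h6 : 3 ≤ δ / 2 * (q : ℝ) ^ (4 * n) := by
      have h7 : δ * M ≤ δ * (q : ℝ) ^ (4 * n) := mul_le_mul_of_nonneg_left hq4 hδ.le
      linarith
    calc 3 * (q : ℝ) ^ (6 * n + 4) ≤ δ / 2 * (q : ℝ) ^ (4 * n) * (q : ℝ) ^ (6 * n + 4) :=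
          mul_le_mul_of_nonneg_right h6 h5.le
      _ = δ / 2 * ((q : ℝ) ^ (4 * n) * (q : ℝ) ^ (6 * n + 4)) := by ring
  have b2 : 22 * (q : ℝ) ^ (10 * n + 4) ≤ (q : ℝ) ^ K * (δ / 2 * (q : ℝ) ^ (10 * n + 4)) := by
    have h6 : 22 ≤ δ / 2 * (q : ℝ) ^ K := by
      have h7 : δ * M ≤ δ * (q : ℝ) ^ K := mul_le_mul_of_nonneg_left hqK hδ.le
      linarith
    calc 22 * (q : ℝ) ^ (10 * n + 4) ≤ δ / 2 * (q : ℝ) ^ K * (q : ℝ) ^ (10 * n + 4) :=
          mul_le_mul_of_nonneg_right h6 hNpos.le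
      _ = (q : ℝ) ^ K * (δ / 2 * (q : ℝ) ^ (10 * n + 4)) := by ring
  have hfin : (q : ℝ) ^ K * b ≤ (q : ℝ) ^ K * (δ * (q : ℝ) ^ (10 * n + 4)) := by
    have h8 := mul_le_mul_of_nonneg_left b1 hKpos.le
    calc (q : ℝ) ^ K * b ≤ (q : ℝ) ^ K * (3 * (q : ℝ) ^ (6 * n + 4)) +
          22 * (q : ℝ) ^ (10 * n + 4) := hR
      _ ≤ (q : ℝ) ^ K * (δ / 2 * (q : ℝ) ^ (10 * n + 4)) +
          (q : ℝ) ^ K * (δ / 2 * (q : ℝ) ^ (10 * n + 4)) := add_le_add h8 b2
      _ = (q : ℝ) ^ K * (δ * (q : ℝ) ^ (10 * n + 4)) := by ring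
  exact le_of_mul_le_mul_left hfin hKpos

end Pool.Agent.Helper97.AS
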