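import Pool.Agent.Helper97.AS.LocalCount
import Pool.Agent.Helper97.AS.IrrSum
import Pool.Agent.Helper97.AS.LargeCount

/-!
# AS-14 GoodCount: the number of the good pairs

`N = q ^ (10 n + 4)`, `q ≥ 5`. The pairs of `box F n` with `natDegree A = 4 n + 1` number `(q - 1) q ^ (4 n + 1) q ^ (6 n + 2) = (1 - 1 / q) N`. For them `deg (4 A ^ 3) = 12 n + 3 > 12 n + 2 ≥ deg (27 B ^ 2)` (`4 ≠ 0`), so `dis A B` has degree `12 n + 3`. If such a pair is not good, then
`dis A B ≠ 0` is not squarefree, so `v ^ 2 ∣ dis A B` for a monic irreducible `v`: either `1 ≤ deg v ≤ 2 n` (then the pair is counted by `local_count` for this `v ∈ (MN F d).filter Irreducible`, `d = deg v`) or `deg v > 2 n` (`large_count`, with `δ = 1 / (30 q ^ 3)`).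
So `card good ≥ (1 - 1 / q) N - ∑_{d ≤ 2 n} ∑_{v ∈ MN F d, irreducible} ((2 q ^ d - 1) / q ^ (3 d)) (1 - 1 / q) N - δ N ≥ (1 - 1 / q) (1 - 2 / q + 1 / (6 q ^ 3)) N - δ N` (`irr_sum_le`), and `(1 - 1 / q) / (6 q ^ 3) ≥ (4 / 5) / (6 q ^ 3) = 2 / (15 q ^ 3)`,
`2 / 15 - 1 / 30 = 1 / 10`.
-/

set_option autoImplicit false

open Polynomial

namespace Pool.Agent.Helper97.AS

open Pool.Agent.Helper31.AR

/-! ### Helpers -/

private theorem gc_five (F : Type) [Field F] [Fintype F] (h2 : (2 : F) ≠ 0) (h3 : (3 : F) ≠ 0) :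
    5 ≤ Fintype.card F := by
  have h1 : 1 < Fintype.card F := Fintype.one_lt_card
  have h0 : ((Fintype.card F : ℕ) : F) = 0 := Nat.cast_card_eq_zero F
  by_contra hcon
  have h4 : Fintype.card F = 2 ∨ Fintype.card F = 3 ∨ Fintype.card F = 4 := by omega
  rcases h4 with h | h | h
  · rw [h] at h0
    exact h2 (by exact_mod_cast h0)
  · rw [h] at h0
    exact h3 (by exact_mod_cast h0)
  · rw [h] at h0
    have h5 : (2 : F) * 2 = 0 := by
      have h6 : (4 : F) = 0 := by exact_mod_cast h0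
      rw [← h6]
      norm_num
    rcases mul_eq_zero.1 h5 with h6 | h6 <;> exact h2 h6

section

variable {F : Type} [Field F] [Fintype F]

open Classical in
private theorem gc_deg {N : ℕ} (hN : 1 ≤ N) :
    (((PN F (N + 1)).filter (fun A => A.natDegree = N)).card : ℝ) =
      (Fintype.card F : ℝ) ^ (N + 1) - (Fintype.card F : ℝ) ^ N := by
  have h1 : (PN F (N + 1)).filter (fun A => ¬ A.natDegree = N) = PN F N := by
    ext A
    rw [Finset.mem_filter, mem_PN_iff_natDegree (Nat.succ_pos N), mem_PN_iff_natDegree hN]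
    omega
  have h4 := Finset.card_filter_add_card_filter_not (s := PN F (N + 1))
    (fun A => A.natDegree = N)
  rw [h1, card_PN, card_PN] at h4
  have h5 : (((PN F (N + 1)).filter (fun A => A.natDegree = N)).card : ℝ) +
      (Fintype.card F : ℝ) ^ N = (Fintype.card F : ℝ) ^ (N + 1) := by exact_mod_cast h4
  linarith

private theorem gc_dis (h2 : (2 : F) ≠ 0) {n : ℕ} {A B : F[X]} (hA : A.natDegree = 4 * n + 1)
    (hB : B.natDegree < 6 * n + 2) : dis A B ≠ 0 ∧ (dis A B).natDegree = 12 * n + 3 := by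
  have hA0 : A ≠ 0 := by
    rintro rfl
    rw [natDegree_zero] at hA
    omega
  have h4 : (4 : F) ≠ 0 := by
    have : (4 : F) = 2 * 2 := by norm_num
    rw [this]
    exact mul_ne_zero h2 h2
  have e4 : (4 : F[X]) = C 4 := (map_ofNat C 4).symm
  have e27 : (27 : F[X]) = C 27 := (map_ofNat C 27).symm
  have h5 : ((4 : F[X]) * A ^ 3).natDegree = 12 * n + 3 := by
    rw [e4, natDegree_C_mul h4, natDegree_pow, hA]
    ring
  have h6 : ((27 : F[X]) * B ^ 2).natDegree ≤ 12 * n + 2 := by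
    rw [e27]
    refine (natDegree_C_mul_le _ _).trans ?_
    rw [natDegree_pow]
    omega
  have h7 : (dis A B).natDegree = 12 * n + 3 := by
    unfold dis
    rw [natDegree_add_eq_left_of_natDegree_lt (by omega), h5]
  refine ⟨?_, h7⟩
  intro h0
  rw [h0, natDegree_zero] at h7
  omega

/-- a non squarefree polynomial is divisible by the square of a monic irreducible polynomial -/
private theorem gc_sq {f : F[X]} (hf : f ≠ 0) (hs : ¬ Squarefree f) :
    ∃ v : F[X], v.Monic ∧ Irreducible v ∧ v ^ 2 ∣ f := by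
  rw [squarefree_iff_irreducible_sq_not_dvd_of_ne_zero hf] at hs
  push Not at hs
  obtain ⟨v, hv, hd⟩ := hs
  have hv0 : v ≠ 0 := hv.ne_zero
  have hl : v.leadingCoeff⁻¹ ≠ 0 := inv_ne_zero (leadingCoeff_ne_zero.2 hv0)
  have hu : IsUnit (C v.leadingCoeff⁻¹) := isUnit_C.2 (isUnit_iff_ne_zero.2 hl)
  have ha : Associated v (v * C v.leadingCoeff⁻¹) := by
    obtain ⟨u, hu⟩ := hu
    exact ⟨u, by rw [hu]⟩
  refine ⟨v * C v.leadingCoeff⁻¹, monic_mul_leadingCoeff_inv hv0, ha.irreducible hv, ?_⟩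
  have h1 : Associated (v ^ 2) ((v * C v.leadingCoeff⁻¹) ^ 2) := ha.pow_pow
  rw [← h1.dvd_iff_dvd_left, pow_two]
  exact hd

open Classical in
/-- the pairs with leading degree of `A` -/
private noncomputable def tp (F : Type) [Field F] [Fintype F] (n : ℕ) : Finset (F[X] × F[X]) :=
  (box F n).filter (fun p => p.1.natDegree = 4 * n + 1)

open Classical in
private theorem tp_card (n : ℕ) : ((tp F n).card : ℝ) =
    ((Fintype.card F : ℝ) ^ (4 * n + 2) - (Fintype.card F : ℝ) ^ (4 * n + 1)) *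
      (Fintype.card F : ℝ) ^ (6 * n + 2) := by
  have h1 : tp F n = ((PN F (4 * n + 1 + 1)).filter (fun A => A.natDegree = 4 * n + 1)) ×ˢ
      PN F (6 * n + 2) := by
    ext p
    unfold tp box
    rw [Finset.mem_filter, Finset.mem_product, Finset.mem_product, Finset.mem_filter]
    tauto
  rw [h1, Finset.card_product, Nat.cast_mul, gc_deg (by omega), card_PN]
  push_cast
  ring

open Classical in
private theorem tp_subset (h2 : (2 : F) ≠ 0) (n : ℕ) : tp F n ⊆ good F n ∪
    (((Finset.Icc 1 (2 * n)).biUnion fun d => ((MN F d).filter fun v => Irreducible v).biUnion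
      fun v => (box F n).filter (fun p => p.1.natDegree = 4 * n + 1 ∧ v ^ 2 ∣ dis p.1 p.2)) ∪
    (box F n).filter (fun p => ∃ v : F[X], Irreducible v ∧ 2 * n < v.natDegree ∧
        v ^ 2 ∣ dis p.1 p.2)) := by
  intro p hp
  unfold tp at hp
  rw [Finset.mem_filter] at hp
  obtain ⟨hb, hA⟩ := hp
  have hb' := hb
  unfold box at hb'
  rw [Finset.mem_product, mem_PN_iff_natDegree (N := 6 * n + 2) (by omega)] at hb'
  obtain ⟨h0, hd⟩ := gc_dis h2 hA hb'.2
  by_cases hs : Squarefree (dis p.1 p.2)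
  · apply Finset.mem_union_left
    unfold good
    rw [Finset.mem_filter]
    exact ⟨hb, hs, hd⟩
  · apply Finset.mem_union_right
    obtain ⟨v, hvm, hvi, hvd⟩ := gc_sq h0 hs
    by_cases hl : v.natDegree ≤ 2 * n
    · apply Finset.mem_union_left
      rw [Finset.mem_biUnion]
      refine ⟨v.natDegree, ?_, ?_⟩
      · rw [Finset.mem_Icc]
        exact ⟨hvi.natDegree_pos, hl⟩
      · rw [Finset.mem_biUnion]
        refine ⟨v, ?_, ?_⟩
        · rw [Finset.mem_filter, mem_MN]
          exact ⟨⟨hvm, rfl⟩, hvi⟩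
        · rw [Finset.mem_filter]
          exact ⟨hb, hA, hvd⟩
    · apply Finset.mem_union_right
      rw [Finset.mem_filter]
      exact ⟨hb, v, hvi, by omega, hvd⟩

open Classical in
private theorem small_card (h2 : (2 : F) ≠ 0) (h3 : (3 : F) ≠ 0) (n : ℕ) :
    (((Finset.Icc 1 (2 * n)).biUnion fun d => ((MN F d).filter fun v => Irreducible v).biUnion
      fun v => (box F n).filter (fun p => p.1.natDegree = 4 * n + 1 ∧
        v ^ 2 ∣ dis p.1 p.2)).card : ℝ) ≤
      (2 / (Fintype.card F : ℝ) - 1 / (6 * (Fintype.card F : ℝ) ^ 3)) *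
        (((Fintype.card F : ℝ) - 1) * (Fintype.card F : ℝ) ^ (10 * n + 3)) := by
  have hq5 := gc_five F h2 h3
  set q : ℝ := (Fintype.card F : ℝ) with hq
  have hq0 : 0 < q := by
    rw [hq]
    exact_mod_cast (by omega : 0 < Fintype.card F)
  have hq1 : (1 : ℝ) ≤ q := by
    rw [hq]
    exact_mod_cast (by omega : 1 ≤ Fintype.card F)
  have h1 : ∀ d ∈ Finset.Icc 1 (2 * n), ((((MN F d).filter fun v => Irreducible v).biUnion
      fun v => (box F n).filter (fun p => p.1.natDegree = 4 * n + 1 ∧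
        v ^ 2 ∣ dis p.1 p.2)).card : ℝ) ≤
      (((MN F d).filter fun v => Irreducible v).card : ℝ) * ((2 * q ^ d - 1) / q ^ (3 * d)) *
        ((q - 1) * q ^ (10 * n + 3)) := by
    intro d hd
    rw [Finset.mem_Icc] at hd
    have h4 : ∀ v ∈ (MN F d).filter (fun v => Irreducible v),
        (((box F n).filter (fun p => p.1.natDegree = 4 * n + 1 ∧
          v ^ 2 ∣ dis p.1 p.2)).card : ℝ) ≤
        (2 * q ^ d - 1) / q ^ (3 * d) * ((q - 1) * q ^ (10 * n + 3)) := by
      intro v hv
      rw [Finset.mem_filter, mem_MN] at hv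
      have h5 := local_count h2 h3 (n := n) hv.1.1 hv.2 (by rw [hv.1.2]; exact hd.2)
      rw [hv.1.2] at h5
      have h6 : 1 ≤ 2 * Fintype.card F ^ d := by
        have := Nat.one_le_pow d (Fintype.card F) (by omega)
        omega
      have h7 : ((((box F n).filter (fun p => p.1.natDegree = 4 * n + 1 ∧
          v ^ 2 ∣ dis p.1 p.2)).card * Fintype.card F ^ (3 * d) : ℕ) : ℝ) ≤
          (((2 * Fintype.card F ^ d - 1) * ((Fintype.card F - 1) *
            Fintype.card F ^ (10 * n + 3)) : ℕ) : ℝ) := by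
        exact_mod_cast h5
      push_cast [Nat.cast_sub h6, Nat.cast_sub (by omega : 1 ≤ Fintype.card F)] at h7
      rw [← hq] at h7
      rw [div_mul_eq_mul_div, le_div_iff₀ (by positivity)]
      exact h7
    calc ((((MN F d).filter fun v => Irreducible v).biUnion
          fun v => (box F n).filter (fun p => p.1.natDegree = 4 * n + 1 ∧
          v ^ 2 ∣ dis p.1 p.2)).card : ℝ)
        ≤ ((∑ v ∈ (MN F d).filter (fun v => Irreducible v),
            ((box F n).filter (fun p => p.1.natDegree = 4 * n + 1 ∧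
              v ^ 2 ∣ dis p.1 p.2)).card : ℕ) : ℝ) := by
          exact_mod_cast Finset.card_biUnion_le
      _ = ∑ v ∈ (MN F d).filter (fun v => Irreducible v),
            (((box F n).filter (fun p => p.1.natDegree = 4 * n + 1 ∧
              v ^ 2 ∣ dis p.1 p.2)).card : ℝ) := by push_cast; rfl
      _ ≤ ∑ v ∈ (MN F d).filter (fun v => Irreducible v),
            (2 * q ^ d - 1) / q ^ (3 * d) * ((q - 1) * q ^ (10 * n + 3)) :=
          Finset.sum_le_sum h4
      _ = _ := by
          rw [Finset.sum_const, nsmul_eq_mul]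
          ring
  calc (((Finset.Icc 1 (2 * n)).biUnion fun d => ((MN F d).filter fun v => Irreducible v).biUnion
        fun v => (box F n).filter (fun p => p.1.natDegree = 4 * n + 1 ∧
        v ^ 2 ∣ dis p.1 p.2)).card : ℝ)
      ≤ ((∑ d ∈ Finset.Icc 1 (2 * n), (((MN F d).filter fun v => Irreducible v).biUnion
          fun v => (box F n).filter (fun p => p.1.natDegree = 4 * n + 1 ∧
            v ^ 2 ∣ dis p.1 p.2)).card : ℕ) : ℝ) := by
        exact_mod_cast Finset.card_biUnion_le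
    _ = ∑ d ∈ Finset.Icc 1 (2 * n), ((((MN F d).filter fun v => Irreducible v).biUnion
          fun v => (box F n).filter (fun p => p.1.natDegree = 4 * n + 1 ∧
            v ^ 2 ∣ dis p.1 p.2)).card : ℝ) := by push_cast; rfl
    _ ≤ ∑ d ∈ Finset.Icc 1 (2 * n), (((MN F d).filter fun v => Irreducible v).card : ℝ) *
          ((2 * q ^ d - 1) / q ^ (3 * d)) * ((q - 1) * q ^ (10 * n + 3)) := Finset.sum_le_sum h1
    _ = (∑ d ∈ Finset.Icc 1 (2 * n), (((MN F d).filter fun v => Irreducible v).card : ℝ) *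
          ((2 * q ^ d - 1) / q ^ (3 * d))) * ((q - 1) * q ^ (10 * n + 3)) := by
        rw [Finset.sum_mul]
    _ ≤ _ := by
        apply mul_le_mul_of_nonneg_right (irr_sum_le F hq5 (2 * n))
        have : 0 ≤ q - 1 := by linarith
        positivity

end

theorem good_count (F : Type) [Field F] [Fintype F] (h2 : (2 : F) ≠ 0) (h3 : (3 : F) ≠ 0) :
    ∃ n₀ : ℕ, ∀ n : ℕ, n₀ ≤ n →
      ((1 - 1 / (Fintype.card F : ℝ)) * (1 - 2 / (Fintype.card F : ℝ)) +
          1 / (10 * (Fintype.card F : ℝ) ^ 3)) * (Fintype.card F : ℝ) ^ (10 * n + 4) ≤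
        ((good F n).card : ℝ) := by
  classical
  have hq5 := gc_five F h2 h3
  set q : ℝ := (Fintype.card F : ℝ) with hq
  have hq5' : (5 : ℝ) ≤ q := by
    rw [hq]
    exact_mod_cast hq5
  have hq0 : 0 < q := by linarith
  obtain ⟨n₀, hn₀⟩ := large_count F h2 h3 (1 / (30 * q ^ 3)) (by positivity)
  refine ⟨n₀, fun n hn => ?_⟩
  have hl := hn₀ n hn
  rw [← hq] at hl
  have hs := small_card h2 h3 n (F := F)
  rw [← hq] at hs
  have ht := tp_card n (F := F)
  rw [← hq] at ht
  have h1 := Finset.card_le_card (tp_subset h2 n (F := F))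
  have h4 : (tp F n).card ≤ (good F n).card +
      (((Finset.Icc 1 (2 * n)).biUnion fun d => ((MN F d).filter fun v => Irreducible v).biUnion
        fun v => (box F n).filter (fun p => p.1.natDegree = 4 * n + 1 ∧
          v ^ 2 ∣ dis p.1 p.2)).card +
      ((box F n).filter (fun p => ∃ v : F[X], Irreducible v ∧ 2 * n < v.natDegree ∧
          v ^ 2 ∣ dis p.1 p.2)).card) :=
    h1.trans ((Finset.card_union_le _ _).trans
      (Nat.add_le_add_left (Finset.card_union_le _ _) _))
  have h5 : ((tp F n).card : ℝ) ≤ ((good F n).card : ℝ) +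
      ((((Finset.Icc 1 (2 * n)).biUnion fun d => ((MN F d).filter fun v => Irreducible v).biUnion
        fun v => (box F n).filter (fun p => p.1.natDegree = 4 * n + 1 ∧
          v ^ 2 ∣ dis p.1 p.2)).card : ℝ) +
      (((box F n).filter (fun p => ∃ v : F[X], Irreducible v ∧ 2 * n < v.natDegree ∧
          v ^ 2 ∣ dis p.1 p.2)).card : ℝ)) := by
    exact_mod_cast h4
  set Q : ℝ := q ^ (10 * n + 4) with hQ
  have hQ0 : 0 < Q := by positivity
  have e1 : (q ^ (4 * n + 2) - q ^ (4 * n + 1)) * q ^ (6 * n + 2) = (1 - 1 / q) * Q := by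
    have e2 : Q = q ^ (4 * n + 2) * q ^ (6 * n + 2) := by
      rw [hQ, ← pow_add]
      congr 1
      ring
    have e3 : q ^ (4 * n + 2) = q * q ^ (4 * n + 1) := by
      rw [← pow_succ']
    rw [e2, e3]
    field_simp
  have e4 : (q - 1) * q ^ (10 * n + 3) = (1 - 1 / q) * Q := by
    have e5 : Q = q * q ^ (10 * n + 3) := by
      rw [hQ, ← pow_succ']
    rw [e5]
    field_simp
  rw [e1] at ht
  rw [e4] at hs
  have hx : 1 / q ≤ 1 / 5 := one_div_le_one_div_of_le (by norm_num) hq5'
  have hfin : ((1 - 1 / q) * (1 - 2 / q) + 1 / (10 * q ^ 3)) * Q ≤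
      (1 - 1 / q) * Q - (2 / q - 1 / (6 * q ^ 3)) * ((1 - 1 / q) * Q) -
        1 / (30 * q ^ 3) * Q := by
    have hy : 0 < 1 / q ^ 3 := by positivity
    have e6 : 1 / (10 * q ^ 3) = (1 / 10) * (1 / q ^ 3) := by ring
    have e7 : 1 / (30 * q ^ 3) = (1 / 30) * (1 / q ^ 3) := by ring
    have e8 : 1 / (6 * q ^ 3) = (1 / 6) * (1 / q ^ 3) := by ring
    have e9 : 2 / q = 2 * (1 / q) := by ring
    rw [e6, e7, e8, e9]
    set a := 1 / q
    set b := 1 / q ^ 3
    have key : 0 ≤ (1 / 6) * b * (1 - a) - (1 / 30) * b - (1 / 10) * b := by nlinarith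
    nlinarith
  linarith

end Pool.Agent.Helper97.AS
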