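import Pool.Agent.Helper97.AS.Defs
import Pool.Agent.Helper31.AR.Residue

/-!
# AS-15 NotMin: few pairs are not minimal at the finite places or singular

Compare `AR/MinCount.lean` (copy). `q ≥ 5`, `N = q ^ (10 n + 4)`, `n ≥ 2`.
* `dis A B = 0`: for every `A` at most two `B`: `≤ 2 q ^ (4 n + 2) ≤ N / (4 q ^ 8)` for `n ≥ 2` (`6 n + 2 ≥ 14`).
* a nonunit `d` (monic of degree `i ≥ 1`, or `d = 0` and then `A = B = 0`) with `d ^ 4 ∣ A`, `d ^ 6 ∣ B`: `(0, 0)`, and otherwise `i ≤ n` (`A ≠ 0`: `4 i ≤ 4 n + 1`; `B ≠ 0`: `6 i ≤ 6 n + 1`); for fixed `d` at most `q ^ (4 n + 2 - 4 i) q ^ (6 n + 2 - 6 i)` pairs;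
  sum over the `q ^ i` monic `d`: `N ∑_{i ≥ 1} q ^ (- 9 i) ≤ 2 N / q ^ 9 ≤ (2 / 5) N / q ^ 8`.
* `Const A B`: at most `q ^ (n + 3)` pairs (`AR/ConstCount.lean`: `a ≠ 0` or `b ≠ 0` and `deg d ≤ n`).
Total at most `N / q ^ 8`.
-/

set_option autoImplicit false

open Polynomial

namespace Pool.Agent.Helper97.AS

open Pool.Agent.Helper31.AR

variable {F : Type} [Field F] [Fintype F]

private theorem nmn_five (h2 : (2 : F) ≠ 0) (h3 : (3 : F) ≠ 0) : 5 ≤ Fintype.card F := by
  have h0 : ((Fintype.card F : ℕ) : F) = 0 := Nat.cast_card_eq_zero F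
  have h1 : 1 < Fintype.card F := Fintype.one_lt_card
  by_contra h
  have h4 : Fintype.card F = 2 ∨ Fintype.card F = 3 ∨ Fintype.card F = 4 := by omega
  rcases h4 with h4 | h4 | h4
  · rw [h4] at h0; exact h2 (by exact_mod_cast h0)
  · rw [h4] at h0; exact h3 (by exact_mod_cast h0)
  · rw [h4] at h0
    have h5 : (2 : F) * 2 = 0 := by
      have : ((4 : ℕ) : F) = 2 * 2 := by norm_num
      rw [← this]; exact h0
    rcases mul_eq_zero.1 h5 with h6 | h6 <;> exact h2 h6

open Classical in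
private theorem nmn_disc (h3 : (3 : F) ≠ 0) (n : ℕ) :
    ((box F n).filter (fun p => dis p.1 p.2 = 0)).card ≤ 2 * Fintype.card F ^ (4 * n + 2) := by
  set S := (box F n).filter (fun p => dis p.1 p.2 = 0) with hS
  have h27 : (27 : F[X]) ≠ 0 := by
    have h : (27 : F[X]) = C (27 : F) := (map_ofNat C 27).symm
    rw [h, Ne, C_eq_zero]
    have h' : (27 : F) = 3 * (3 * 3) := by norm_num
    rw [h']
    exact mul_ne_zero h3 (mul_ne_zero h3 h3)
  have hmap : ∀ p ∈ S, p.1 ∈ PN F (4 * n + 2) := by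
    intro p hp
    rw [hS, Finset.mem_filter, box, Finset.mem_product] at hp
    exact hp.1.1
  have hfib : ∀ A ∈ PN F (4 * n + 2), (S.filter (fun p => p.1 = A)).card ≤ 2 := by
    intro A _
    by_cases hne : (S.filter (fun p => p.1 = A)).Nonempty
    · obtain ⟨p0, hp0⟩ := hne
      have hsub : S.filter (fun p => p.1 = A) ⊆ {(A, p0.2), (A, -p0.2)} := by
        intro p hp
        rw [Finset.mem_filter] at hp hp0
        rw [hS, Finset.mem_filter] at hp hp0
        obtain ⟨⟨_, h1⟩, hA⟩ := hp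
        obtain ⟨⟨_, h1'⟩, hA'⟩ := hp0
        unfold dis at h1 h1'
        rw [hA] at h1
        rw [hA'] at h1'
        have h5 : (27 : F[X]) * (p.2 ^ 2 - p0.2 ^ 2) = 0 := by linear_combination h1 - h1'
        have h6 : p.2 ^ 2 - p0.2 ^ 2 = 0 := (mul_eq_zero.1 h5).resolve_left h27
        have h7 : (p.2 - p0.2) * (p.2 + p0.2) = 0 := by linear_combination h6
        rw [Finset.mem_insert, Finset.mem_singleton]
        rcases mul_eq_zero.1 h7 with h8 | h8
        · left; ext1
          · exact hA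
          · exact sub_eq_zero.1 h8
        · right; ext1
          · exact hA
          · exact eq_neg_of_add_eq_zero_left h8
      exact (Finset.card_le_card hsub).trans Finset.card_le_two
    · rw [Finset.not_nonempty_iff_eq_empty] at hne
      rw [hne]; simp
  have h := Finset.card_le_mul_card_image_of_maps_to hmap 2 hfib
  rw [card_PN] at h
  exact h

open Classical in
private theorem nmn_mult (n : ℕ) :
    ((box F n).filter
      (fun p => ¬ (p.1 = 0 ∧ p.2 = 0) ∧ ∃ d : F[X], ¬ IsUnit d ∧ d ^ 4 ∣ p.1 ∧ d ^ 6 ∣ p.2)).card ≤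
      ∑ i ∈ Finset.Icc 1 n, Fintype.card F ^ i *
        (Fintype.card F ^ (4 * n + 2 - 4 * i) * Fintype.card F ^ (6 * n + 2 - 6 * i)) := by
  have hsub : (box F n).filter
      (fun p => ¬ (p.1 = 0 ∧ p.2 = 0) ∧ ∃ d : F[X], ¬ IsUnit d ∧ d ^ 4 ∣ p.1 ∧ d ^ 6 ∣ p.2) ⊆
      (Finset.Icc 1 n).biUnion (fun i => (MN F i).biUnion (fun d =>
        (PN F (4 * n + 2 - 4 * i) ×ˢ PN F (6 * n + 2 - 6 * i)).image
          (fun x => (d ^ 4 * x.1, d ^ 6 * x.2)))) := by
    rintro ⟨A, B⟩ hp
    rw [Finset.mem_filter, box, Finset.mem_product] at hp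
    obtain ⟨⟨hA, hB⟩, h0, d, hdu, hd4, hd6⟩ := hp
    simp only at hA hB h0 hd4 hd6
    have hd0 : d ≠ 0 := by
      rintro rfl
      apply h0
      constructor
      · simpa using hd4
      · simpa using hd6
    set e := normalize d with he
    have hea : Associated d e := (normalize_associated d).symm
    have hem : e.Monic := Polynomial.monic_normalize hd0
    have he4 : e ^ 4 ∣ A := ((hea.pow_pow).dvd_iff_dvd_left).1 hd4
    have he6 : e ^ 6 ∣ B := ((hea.pow_pow).dvd_iff_dvd_left).1 hd6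
    have hi1 : 1 ≤ e.natDegree := by
      by_contra hlt
      have h1 : e.natDegree = 0 := by omega
      have h2 : e = 1 := hem.natDegree_eq_zero.1 h1
      rw [h2] at hea
      exact hdu (associated_one_iff_isUnit.1 hea)
    rw [mem_PN_iff_natDegree (by omega)] at hA hB
    obtain ⟨a, ha⟩ := he4
    obtain ⟨b, hb⟩ := he6
    have hdA : a ≠ 0 → 4 * e.natDegree + a.natDegree < 4 * n + 2 := by
      intro ha0
      have h1 : A.natDegree = 4 * e.natDegree + a.natDegree := by
        rw [ha, (hem.pow 4).natDegree_mul' ha0, hem.natDegree_pow]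
      omega
    have hdB : b ≠ 0 → 6 * e.natDegree + b.natDegree < 6 * n + 2 := by
      intro hb0
      have h1 : B.natDegree = 6 * e.natDegree + b.natDegree := by
        rw [hb, (hem.pow 6).natDegree_mul' hb0, hem.natDegree_pow]
      omega
    have hin : e.natDegree ≤ n := by
      by_contra hgt
      have ha0 : a = 0 := by
        by_contra ha0
        have := hdA ha0
        omega
      have hb0 : b = 0 := by
        by_contra hb0
        have := hdB hb0
        omega
      apply h0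
      rw [ha, hb, ha0, hb0]
      simp
    rw [Finset.mem_biUnion]
    refine ⟨e.natDegree, Finset.mem_Icc.2 ⟨hi1, hin⟩, ?_⟩
    rw [Finset.mem_biUnion]
    refine ⟨e, (mem_MN _ _).2 ⟨hem, rfl⟩, ?_⟩
    rw [Finset.mem_image]
    refine ⟨(a, b), ?_, ?_⟩
    · rw [Finset.mem_product]
      constructor
      · simp only
        rw [mem_PN_iff_natDegree (by omega)]
        by_cases ha0 : a = 0
        · rw [ha0, natDegree_zero]; omega
        · have := hdA ha0; omega
      · simp only
        rw [mem_PN_iff_natDegree (by omega)]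
        by_cases hb0 : b = 0
        · rw [hb0, natDegree_zero]; omega
        · have := hdB hb0; omega
    · simp only
      rw [← ha, ← hb]
  refine (Finset.card_le_card hsub).trans ?_
  refine Finset.card_biUnion_le.trans ?_
  apply Finset.sum_le_sum
  intro i _
  refine Finset.card_biUnion_le.trans ?_
  have h1 : ∀ d ∈ MN F i, ((PN F (4 * n + 2 - 4 * i) ×ˢ PN F (6 * n + 2 - 6 * i)).image
          (fun x : F[X] × F[X] => (d ^ 4 * x.1, d ^ 6 * x.2))).card ≤
      Fintype.card F ^ (4 * n + 2 - 4 * i) * Fintype.card F ^ (6 * n + 2 - 6 * i) := by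
    intro d _
    refine Finset.card_image_le.trans ?_
    rw [Finset.card_product, card_PN, card_PN]
  refine (Finset.sum_le_sum h1).trans ?_
  rw [Finset.sum_const, card_MN, smul_eq_mul]

open Classical in
private theorem nmn_const (n : ℕ) :
    ((box F n).filter (fun p => Const p.1 p.2)).card ≤ Fintype.card F ^ (n + 3) := by
  have hsub : ((box F n).filter (fun p => Const p.1 p.2)) ⊆
      ((Finset.univ : Finset F) ×ˢ (Finset.univ : Finset F) ×ˢ PN F (n + 1)).image
        (fun x : F × F × F[X] => (C x.1 * x.2.2 ^ 4, C x.2.1 * x.2.2 ^ 6)) := by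
    rintro ⟨A, B⟩ hp
    rw [Finset.mem_filter, box, Finset.mem_product] at hp
    obtain ⟨⟨hA, hB⟩, a, b, d, h1, h2⟩ := hp
    simp only at hA hB h1 h2
    rw [Finset.mem_image]
    by_cases hd : d ∈ PN F (n + 1)
    · exact ⟨(a, b, d), by simp [hd], by rw [h1, h2]⟩
    · rw [mem_PN_iff_natDegree (Nat.succ_pos n), not_lt] at hd
      rw [mem_PN_iff_natDegree (by omega)] at hA hB
      have ha : a = 0 := by
        by_contra ha
        rw [h1, natDegree_C_mul ha, natDegree_pow] at hA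
        omega
      have hb : b = 0 := by
        by_contra hb
        rw [h2, natDegree_C_mul hb, natDegree_pow] at hB
        omega
      refine ⟨(0, 0, 0), by simp [zero_mem_PN], ?_⟩
      rw [h1, h2, ha, hb]
      simp
  refine (Finset.card_le_card hsub).trans (Finset.card_image_le.trans ?_)
  rw [Finset.card_product, Finset.card_product, card_PN, Finset.card_univ]
  apply le_of_eq
  ring

private theorem nmn_sum (q n : ℕ) (hq : 5 ≤ q) (hn : 2 ≤ n) :
    ∑ i ∈ Finset.Icc 1 n, q ^ i * (q ^ (4 * n + 2 - 4 * i) * q ^ (6 * n + 2 - 6 * i)) ≤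
      2 * q ^ (10 * n - 5) := by
  have e1 : ∀ i ∈ Finset.Icc 1 n, q ^ i * (q ^ (4 * n + 2 - 4 * i) * q ^ (6 * n + 2 - 6 * i)) =
      q ^ (10 * n + 4 - 9 * i) := by
    intro i hi
    rw [Finset.mem_Icc] at hi
    rw [← pow_add, ← pow_add]
    congr 1
    omega
  rw [Finset.sum_congr rfl e1]
  have key : ∀ k : ℕ, 1 ≤ k → k ≤ n → ∑ i ∈ Finset.Icc 1 k, q ^ (10 * n + 4 - 9 * i) +
      q ^ (10 * n + 4 - 9 * k) ≤ 2 * q ^ (10 * n - 5) := by
    intro k hk
    induction k, hk using Nat.le_induction with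
    | base =>
      intro _
      rw [Finset.Icc_self, Finset.sum_singleton, mul_one]
      have : 10 * n + 4 - 9 = 10 * n - 5 := by omega
      rw [this]
      omega
    | succ k hk ih =>
      intro hkn
      have h1 := ih (by omega)
      rw [Finset.sum_Icc_succ_top (by omega)]
      have h2 : q ^ (10 * n + 4 - 9 * k) = q ^ (10 * n + 4 - 9 * (k + 1)) * q ^ 9 := by
        rw [← pow_add]
        congr 1
        omega
      have h3 : 2 ≤ q ^ 9 := by
        calc 2 ≤ 5 ^ 9 := by norm_num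
          _ ≤ q ^ 9 := Nat.pow_le_pow_left hq 9
      have h4 : q ^ (10 * n + 4 - 9 * (k + 1)) * 2 ≤ q ^ (10 * n + 4 - 9 * k) := by
        rw [h2]
        exact Nat.mul_le_mul_left _ h3
      omega
  have h := key n (by omega) le_rfl
  omega

open Classical in
theorem card_bad_le (h2 : (2 : F) ≠ 0) (h3 : (3 : F) ≠ 0) {n : ℕ} (hn : 2 ≤ n) :
    (((box F n).filter (fun p => ¬ (MinF p.1 p.2 ∧ dis p.1 p.2 ≠ 0 ∧ ¬ Const p.1 p.2))).card : ℝ) ≤
      (Fintype.card F : ℝ) ^ (10 * n + 4) / (Fintype.card F : ℝ) ^ 8 := by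
  set q := Fintype.card F with hq
  have hq5 : 5 ≤ q := nmn_five h2 h3
  have hsub : (box F n).filter (fun p => ¬ (MinF p.1 p.2 ∧ dis p.1 p.2 ≠ 0 ∧ ¬ Const p.1 p.2)) ⊆
      ((box F n).filter (fun p => dis p.1 p.2 = 0) ∪
      (box F n).filter
        (fun p => ¬ (p.1 = 0 ∧ p.2 = 0) ∧ ∃ d : F[X], ¬ IsUnit d ∧ d ^ 4 ∣ p.1 ∧ d ^ 6 ∣ p.2)) ∪
      (box F n).filter (fun p => Const p.1 p.2) := by
    intro p hp
    rw [Finset.mem_filter] at hp
    obtain ⟨hp1, hp2⟩ := hp
    rw [Finset.mem_union, Finset.mem_union, Finset.mem_filter, Finset.mem_filter,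
      Finset.mem_filter]
    by_cases hd : dis p.1 p.2 = 0
    · exact Or.inl (Or.inl ⟨hp1, hd⟩)
    by_cases hc : Const p.1 p.2
    · exact Or.inr ⟨hp1, hc⟩
    · have hm : ¬ MinF p.1 p.2 := fun h => hp2 ⟨h, hd, hc⟩
      unfold MinF at hm
      push Not at hm
      obtain ⟨d, hd1, hd2, hd3⟩ := hm
      refine Or.inl (Or.inr ⟨hp1, ?_, d, hd1, hd2, hd3⟩)
      rintro ⟨h1, h2⟩
      apply hd
      unfold dis
      rw [h1, h2]; ring
  have hcard := (Finset.card_le_card hsub).trans (Finset.card_union_le _ _)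
  have hcard2 := hcard.trans (Nat.add_le_add_right (Finset.card_union_le _ _) _)
  have hc1 := nmn_disc (F := F) h3 n
  have hc2 := (nmn_mult (F := F) n).trans (nmn_sum _ n hq5 hn)
  have hc3 := nmn_const (F := F) n
  rw [← hq] at hc1 hc2 hc3
  have b1 : q ^ (4 * n + 2) ≤ q ^ (10 * n - 5) := Nat.pow_le_pow_right (by omega) (by omega)
  have b3 : q ^ (n + 3) ≤ q ^ (10 * n - 5) := Nat.pow_le_pow_right (by omega) (by omega)
  have b4 : q ^ (10 * n - 4) = q ^ (10 * n - 5) * q := by
    rw [← pow_succ]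
    congr 1
    omega
  have b5 : q ^ (10 * n - 5) * 5 ≤ q ^ (10 * n - 4) := by
    rw [b4]
    exact Nat.mul_le_mul_left _ hq5
  have hfin : ((box F n).filter
      (fun p => ¬ (MinF p.1 p.2 ∧ dis p.1 p.2 ≠ 0 ∧ ¬ Const p.1 p.2))).card ≤ q ^ (10 * n - 4) := by
    omega
  have hqpos : (0 : ℝ) < (q : ℝ) := by
    have : 0 < q := by omega
    exact_mod_cast this
  have e : (q : ℝ) ^ (10 * n + 4) / (q : ℝ) ^ 8 = (q : ℝ) ^ (10 * n - 4) := by
    rw [div_eq_iff (by positivity), ← pow_add]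
    congr 1
    omega
  rw [e]
  exact_mod_cast hfin

end Pool.Agent.Helper97.AS
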