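import Pool.Agent.Helper97.AS.GoodSum
import Pool.Agent.Helper97.AS.GoodCount
import Pool.Agent.Helper97.AS.NotMin

/-!
# AS-16 Count: from the average to the proportion

`N = q ^ (10 n + 4) = card (box F n)`, `q ≥ 5` (`2 ≠ 0`, `3 ≠ 0`; see `five_le_card` in `AR/MinCount.lean`). Hypothesis `havg`: for every `δ' > 0` the sum of `ord` over `admS` is at most `(11 / 6 + δ') N` for large `n`; use it for `δ' = 1 / (100 q ^ 3)`.
`fr r = r + 2 * (if r ≤ 1 then 1 else 0)`, `fr r ≥ 2`. So with `good ⊆ admS` (`good_subset_admS`) and `sum_good`: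
`∑_{admS} ord + 2 #{p ∈ admS : ord ≤ 1} = ∑_{admS} fr (ord) ≥ 2 (card admS - card good) + (5 / 2) card good = 2 card admS + card good / 2`.
`card admS ≥ N - N / q ^ 8` (`card_bad_le`). So `#{p ∈ admS : ord ≤ 1} ≥ card admS + card good / 4 - (11 / 12 + δ' / 2) N ≥ (1 / 12 - 1 / q ^ 8 - δ' / 2) N + card good / 4`. Remove the pairs which are not `MinF` or have `dis = 0` (`card_bad_le` again, `N / q ^ 8`).
With `good_count`: the number is at least `(1 / 12 + (1 - 1 / q) (1 - 2 / q) / 4 + 1 / (40 q ^ 3) - 2 / q ^ 8 - 1 / (200 q ^ 3)) N`, and `1 / 40 - 1 / 200 = 1 / 50 ≥ 2 / q ^ 5` (`q ^ 5 ≥ 3125`).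
-/

set_option autoImplicit false

open Polynomial

namespace Pool.Agent.Helper97.AS

open Pool.Agent.Helper31.AR

private theorem cnt_five_le {F : Type} [Field F] [Fintype F] (h2 : (2 : F) ≠ 0)
    (h3 : (3 : F) ≠ 0) : 5 ≤ Fintype.card F := by
  have h0 : ((Fintype.card F : ℕ) : F) = 0 := Nat.cast_card_eq_zero F
  have h1 : 1 < Fintype.card F := Fintype.one_lt_card
  by_contra h
  have h4 : Fintype.card F = 2 ∨ Fintype.card F = 3 ∨ Fintype.card F = 4 := by omega
  rcases h4 with h4 | h4 | h4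
  · rw [h4] at h0; exact h2 (by exact_mod_cast h0)
  · rw [h4] at h0; exact h3 (by exact_mod_cast h0)
  · rw [h4] at h0
    have h5 : (2 : F) * 2 = 0 := by
      have : ((4 : ℕ) : F) = 2 * 2 := by norm_num
      rw [← this]; exact h0
    rcases mul_eq_zero.1 h5 with h6 | h6 <;> exact h2 h6

private theorem cnt_fr (r : ℕ) : fr r = r + (if r ≤ 1 then 2 else 0) := by
  unfold fr
  split_ifs <;> rfl

open Classical in
theorem proportion (F : Type) [Field F] [Fintype F] (h2 : (2 : F) ≠ 0) (h3 : (3 : F) ≠ 0)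
    (havg : ∀ δ : ℝ, 0 < δ → ∃ n₀ : ℕ, ∀ n : ℕ, n₀ ≤ n → ∀ Q : F[X] → F[X] → ℤ[X],
      (∀ p ∈ admS F n, IsFrob (n + 1) p.1 p.2 (Q p.1 p.2)) →
      ∑ p ∈ admS F n, ((ord F (Q p.1 p.2) : ℕ) : ℝ) ≤
        (11 / 6 + δ) * (Fintype.card F : ℝ) ^ (10 * n + 4)) :
    ∃ n₀ : ℕ, ∀ n : ℕ, n₀ ≤ n → ∀ Q : F[X] → F[X] → ℤ[X],
      (∀ p ∈ admS F n, IsFrobS n p.1 p.2 (Q p.1 p.2)) →
      (1 / 12 + (1 - 1 / (Fintype.card F : ℝ)) * (1 - 2 / (Fintype.card F : ℝ)) / 4) *
          (Fintype.card F : ℝ) ^ (10 * n + 4) ≤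
        (((admS F n).filter (fun p => MinF p.1 p.2 ∧ dis p.1 p.2 ≠ 0 ∧
          ord F (Q p.1 p.2) ≤ 1)).card : ℝ) := by
  have hq5 := cnt_five_le h2 h3
  set q : ℝ := (Fintype.card F : ℝ) with hqdef
  have hq5R : (5 : ℝ) ≤ q := by
    rw [hqdef]
    exact_mod_cast hq5
  have hq0 : 0 < q := by linarith
  obtain ⟨n₁, h₁⟩ := havg (1 / (100 * q ^ 3)) (by positivity)
  obtain ⟨n₂, h₂⟩ := good_count F h2 h3
  refine ⟨max (max n₁ n₂) 2, fun n hn Q hQ => ?_⟩
  have hn1 : n₁ ≤ n := le_trans (le_trans (le_max_left _ _) (le_max_left _ _)) hn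
  have hn2 : n₂ ≤ n := le_trans (le_trans (le_max_right _ _) (le_max_left _ _)) hn
  have hn3 : 2 ≤ n := le_trans (le_max_right _ _) hn
  have hsum := h₁ n hn1 Q (fun p hp => (hQ p hp).toIsFrob)
  have hgood := h₂ n hn2
  have hbad := card_bad_le h2 h3 (n := n) hn3
  have hsg := sum_good h2 Q hQ
  have hsub := good_subset_admS (F := F) n
  rw [← hqdef] at hgood hbad
  set N : ℝ := q ^ (10 * n + 4) with hN
  have hNpos : 0 < N := by positivity
  set T := (admS F n).filter (fun p => ord F (Q p.1 p.2) ≤ 1) with hT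
  set U := (admS F n).filter (fun p => MinF p.1 p.2 ∧ dis p.1 p.2 ≠ 0 ∧
    ord F (Q p.1 p.2) ≤ 1) with hU
  set W := (box F n).filter
    (fun p => ¬ (MinF p.1 p.2 ∧ dis p.1 p.2 ≠ 0 ∧ ¬ Const p.1 p.2)) with hW
  -- the sum of `fr`
  have ha : ∑ p ∈ admS F n, fr (ord F (Q p.1 p.2)) =
      ∑ p ∈ admS F n, ord F (Q p.1 p.2) + 2 * T.card := by
    simp only [cnt_fr]
    rw [Finset.sum_add_distrib, ← Finset.sum_filter, Finset.sum_const, smul_eq_mul, mul_comm]
  have hb : 5 * (good F n).card + 4 * ((admS F n).card - (good F n).card) ≤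
      2 * ∑ p ∈ admS F n, fr (ord F (Q p.1 p.2)) := by
    rw [← Finset.sum_sdiff hsub, ← Finset.card_sdiff_of_subset hsub, mul_add]
    have h4 : 4 * (admS F n \ good F n).card ≤
        2 * ∑ p ∈ admS F n \ good F n, fr (ord F (Q p.1 p.2)) := by
      have h5 : (admS F n \ good F n).card • 2 ≤
          ∑ p ∈ admS F n \ good F n, fr (ord F (Q p.1 p.2)) :=
        Finset.card_nsmul_le_sum _ _ _ (fun p _ => two_le_fr _)
      rw [smul_eq_mul] at h5
      omega
    omega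
  -- cardinalities
  have hbox : ((box F n).card : ℝ) = N := by
    unfold box
    rw [Finset.card_product, card_PN, card_PN, hN, hqdef]
    push_cast
    rw [← pow_add]
    congr 1
    ring
  have hc : (box F n).card ≤ (admS F n).card + W.card := by
    have h4 : box F n ⊆ admS F n ∪ W := by
      intro p hp
      rw [Finset.mem_union]
      by_cases h : Const p.1 p.2
      · right
        rw [hW, Finset.mem_filter]
        exact ⟨hp, fun h5 => h5.2.2 h⟩
      · left
        unfold admS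
        rw [Finset.mem_filter]
        exact ⟨hp, h⟩
    exact (Finset.card_le_card h4).trans (Finset.card_union_le _ _)
  have hd : T.card ≤ U.card + W.card := by
    have h4 : T ⊆ U ∪ W := by
      intro p hp
      rw [hT, Finset.mem_filter] at hp
      obtain ⟨hp1, hp2⟩ := hp
      have hp3 : p ∈ box F n := by
        unfold admS at hp1
        exact (Finset.mem_filter.1 hp1).1
      rw [Finset.mem_union, hU, hW, Finset.mem_filter, Finset.mem_filter]
      by_cases h : MinF p.1 p.2 ∧ dis p.1 p.2 ≠ 0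
      · exact Or.inl ⟨hp1, h.1, h.2, hp2⟩
      · exact Or.inr ⟨hp3, fun h5 => h ⟨h5.1, h5.2.1⟩⟩
    exact (Finset.card_le_card h4).trans (Finset.card_union_le _ _)
  have hle : (good F n).card ≤ (admS F n).card := Finset.card_le_card hsub
  have he : (good F n).card + 4 * (admS F n).card ≤
      2 * ∑ p ∈ admS F n, ord F (Q p.1 p.2) + 4 * T.card := by
    rw [ha] at hb
    omega
  have heR : ((good F n).card : ℝ) + 4 * ((admS F n).card : ℝ) ≤
      2 * ∑ p ∈ admS F n, ((ord F (Q p.1 p.2) : ℕ) : ℝ) + 4 * (T.card : ℝ) := by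
    exact_mod_cast he
  have hcR : N ≤ ((admS F n).card : ℝ) + (W.card : ℝ) := by
    rw [← hbox]
    exact_mod_cast hc
  have hdR : (T.card : ℝ) ≤ (U.card : ℝ) + (W.card : ℝ) := by exact_mod_cast hd
  have hW8 : (W.card : ℝ) ≤ N / q ^ 8 := hbad
  have hq3 : 0 < q ^ 3 := by positivity
  have hq8 : N / q ^ 8 ≤ N * (1 / (100 * q ^ 3)) := by
    rw [div_eq_mul_inv, ← one_div]
    refine mul_le_mul_of_nonneg_left ?_ hNpos.le
    rw [div_le_div_iff₀ (by positivity) (by positivity), one_mul, one_mul]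
    have h4 : q ^ 8 = q ^ 5 * q ^ 3 := by ring
    rw [h4]
    refine mul_le_mul_of_nonneg_right ?_ hq3.le
    calc (100 : ℝ) ≤ 5 ^ 5 := by norm_num
      _ ≤ q ^ 5 := pow_le_pow_left₀ (by norm_num) hq5R 5
  have hexp : (1 / (10 * q ^ 3)) * N = 10 * (N * (1 / (100 * q ^ 3))) := by
    field_simp
    ring
  have hg2 : (1 - 1 / q) * (1 - 2 / q) * N + 10 * (N * (1 / (100 * q ^ 3))) ≤
      ((good F n).card : ℝ) := by
    rw [← hexp, ← add_mul]
    exact hgood
  set x : ℝ := N * (1 / (100 * q ^ 3)) with hx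
  have hx0 : 0 < x := by positivity
  have hs2 : ∑ p ∈ admS F n, ((ord F (Q p.1 p.2) : ℕ) : ℝ) ≤ 11 / 6 * N + x := by
    rw [hx]
    linarith
  have hfin : (1 / 12 + (1 - 1 / q) * (1 - 2 / q) / 4) * N =
      1 / 12 * N + (1 - 1 / q) * (1 - 2 / q) * N / 4 := by ring
  rw [hfin]
  linarith

end Pool.Agent.Helper97.AS
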