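import Pool.Agent.Helper31.AR.FrobDefs

/-!
# Project AS (MP_8ac872_ag): elliptic curves over `F_q(t)` of odd conductor: definitions (no sorry)

`F` is a finite field with `q` elements. `PN F N` is the finset of the polynomials of degree `< N`.

* `dis A B = 4 A ^ 3 + 27 B ^ 2`.
* `box F n`: the pairs `(A, B)` with `deg A ≤ 4 n + 1`, `deg B ≤ 6 n + 1` (`q ^ (10 n + 4)` pairs), `admS F n` those which are not
  of the form `(a d ^ 4, b d ^ 6)` with constants `a`, `b`.
* `good F n`: the pairs with `dis A B` squarefree of degree `12 n + 3`.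
* `IsFrobS n A B Q`: `Q` is the Frobenius polynomial of `y ^ 2 = x ^ 3 + A(t) x + B(t)` (`IsFrob (n + 1) A B Q`: monic, integral, degree at most
  `12 n + 8`, roots of absolute value at most `q`, the power sums of the roots given by the numbers of points), and if `dis A B` is
  squarefree of degree `12 n + 3` then `Q` has degree `12 n + 1` and all its roots have absolute value `q`.
* `MinF A B`: there is no nonunit `d` with `d ^ 4 ∣ A` and `d ^ 6 ∣ B`.
* `fr r = r + 2` if `r ≤ 1`, `fr r = r` otherwise.
-/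

set_option autoImplicit false

open Polynomial

namespace Pool.Agent.Helper97.AS

open Pool.Agent.Helper31.AR

section

/-- `4 A ^ 3 + 27 B ^ 2`. -/
noncomputable def dis {F : Type} [Field F] (A B : F[X]) : F[X] := 4 * A ^ 3 + 27 * B ^ 2

/-- There is no nonunit `d` with `d ^ 4 ∣ A` and `d ^ 6 ∣ B`. -/
def MinF {F : Type} [Field F] (A B : F[X]) : Prop :=
  ∀ d : F[X], ¬ IsUnit d → ¬ (d ^ 4 ∣ A ∧ d ^ 6 ∣ B)

variable (F : Type) [Field F] [Fintype F]

/-- The pairs `(A, B)` with `deg A ≤ 4 n + 1`, `deg B ≤ 6 n + 1`. -/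
noncomputable def box (n : ℕ) : Finset (F[X] × F[X]) := PN F (4 * n + 2) ×ˢ PN F (6 * n + 2)

open Classical in
/-- The pairs of `box F n` which are not of the form `(a d ^ 4, b d ^ 6)`. -/
noncomputable def admS (n : ℕ) : Finset (F[X] × F[X]) :=
  (box F n).filter (fun p => ¬ Const p.1 p.2)

open Classical in
/-- The pairs of `box F n` with `dis A B` squarefree of degree `12 n + 3`. -/
noncomputable def good (n : ℕ) : Finset (F[X] × F[X]) :=
  (box F n).filter (fun p => Squarefree (dis p.1 p.2) ∧ (dis p.1 p.2).natDegree = 12 * n + 3)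

variable {F}

/-- The Frobenius polynomials of the pairs of `box F n`. -/
structure IsFrobS (n : ℕ) (A B : F[X]) (Q : ℤ[X]) : Prop extends IsFrob (n + 1) A B Q where
  natDegree_eq : Squarefree (dis A B) → (dis A B).natDegree = 12 * n + 3 →
    Q.natDegree = 12 * n + 1
  norm_eq : Squarefree (dis A B) → (dis A B).natDegree = 12 * n + 3 →
    ∀ b : ℂ, aeval b Q = 0 → ‖b‖ = Fintype.card F

/-- `r + 2` if `r ≤ 1`, and `r` otherwise. -/
def fr (r : ℕ) : ℕ := if r ≤ 1 then r + 2 else r

end

end Pool.Agent.Helper97.AS
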