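import Pool.Agent.Helper97.AS.Defs

/-!
# AS-10 Elim: large primes whose square divides `dis A B` divide a fixed polynomial

`G A B = A ^ 3 (3 B' ^ 2 + A A' ^ 2)` (derivatives).
* `dvd_G`: if `v ^ 2 ∣ D = dis A B` then `v ∣ D` and `v ∣ D' = 12 A ^ 2 A' + 54 B B' = 6 (2 A ^ 2 A' + 9 B B')`; so modulo `v` (`6 ≠ 0`): `9 B B' ≡ - 2 A ^ 2 A'`. `3 B' ^ 2 D = 12 A ^ 3 B' ^ 2 + (9 B B') ^ 2 ≡ 12 A ^ 3 B' ^ 2 + 4 A ^ 4 A' ^ 2 = 4 G A B`.
  So `v ∣ 4 G`, `v ∣ G`. (As an identity: `4 G A B = 3 B' ^ 2 D - (9 B B') ^ 2 + (2 A ^ 2 A') ^ 2` and `(2 A ^ 2 A') ^ 2 - (9 B B') ^ 2 = (2 A ^ 2 A' - 9 B B') (2 A ^ 2 A' + 9 B B')`.)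
* `natDegree_G_le`: `deg ≤ 3 (4 n + 1) + max (12 n, (4 n + 1) + 8 n) = 24 n + 4`.
* `card_large_le`: the monic irreducible `v` of degree `> 2 n` dividing `G ≠ 0` are pairwise coprime, their product divides `G`, so their number `k` satisfies `k (2 n + 1) ≤ 24 n + 4`, `k ≤ 11`. Stated for a finset of such `v`.
-/

set_option autoImplicit false

open Polynomial

namespace Pool.Agent.Helper97.AS

open Pool.Agent.Helper31.AR

variable {F : Type} [Field F]

/-- `A ^ 3 (3 B' ^ 2 + A A' ^ 2)`. -/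
noncomputable def G (A B : F[X]) : F[X] :=
  A ^ 3 * (3 * (derivative B) ^ 2 + A * (derivative A) ^ 2)

theorem dvd_G (h2 : (2 : F) ≠ 0) (h3 : (3 : F) ≠ 0) {v A B : F[X]} (h : v ^ 2 ∣ dis A B) :
    v ∣ G A B := by
  have hv : v ∣ dis A B := (dvd_pow_self v (by norm_num)).trans h
  have hv' : v ∣ derivative (dis A B) := by
    obtain ⟨w, hw⟩ := h
    rw [hw, derivative_mul, derivative_pow]
    refine dvd_add ?_ ?_
    · refine (Dvd.dvd.mul_right ?_ _)
      refine Dvd.dvd.mul_right ?_ _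
      refine Dvd.dvd.mul_left ?_ _
      norm_num
    · exact (dvd_pow_self v (by norm_num)).mul_right _
  have hD : derivative (dis A B) =
      6 * (2 * A ^ 2 * derivative A + 9 * B * derivative B) := by
    unfold dis
    have e4 : (4 : F[X]) = C 4 := (map_ofNat C 4).symm
    have e27 : (27 : F[X]) = C 27 := (map_ofNat C 27).symm
    rw [derivative_add, e4, e27, derivative_C_mul, derivative_C_mul, derivative_pow,
      derivative_pow, ← e4, ← e27]
    have e3 : C ((3 : ℕ) : F) = 3 := by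
      rw [C_eq_natCast]
      norm_num
    have e2 : C ((2 : ℕ) : F) = 2 := by
      rw [C_eq_natCast]
      norm_num
    rw [e3, e2]
    ring
  have h6 : (6 : F) ≠ 0 := by
    have : (6 : F) = 2 * 3 := by norm_num
    rw [this]
    exact mul_ne_zero h2 h3
  have h4 : (4 : F) ≠ 0 := by
    have : (4 : F) = 2 * 2 := by norm_num
    rw [this]
    exact mul_ne_zero h2 h2
  have i6 : C ((6 : F)⁻¹) * (6 : F[X]) = 1 := by
    rw [show (6 : F[X]) = C 6 from (map_ofNat C 6).symm, ← C_mul, inv_mul_cancel₀ h6, C_1]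
  have i4 : C ((4 : F)⁻¹) * (4 : F[X]) = 1 := by
    rw [show (4 : F[X]) = C 4 from (map_ofNat C 4).symm, ← C_mul, inv_mul_cancel₀ h4, C_1]
  have hE : v ∣ 2 * A ^ 2 * derivative A + 9 * B * derivative B := by
    have h5 : C ((6 : F)⁻¹) * derivative (dis A B) =
        2 * A ^ 2 * derivative A + 9 * B * derivative B := by
      rw [hD, ← mul_assoc, i6, one_mul]
    rw [← h5]
    exact hv'.mul_left _
  have hG : C ((4 : F)⁻¹) * (3 * (derivative B) ^ 2 * dis A B +
      (2 * A ^ 2 * derivative A - 9 * B * derivative B) *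
        (2 * A ^ 2 * derivative A + 9 * B * derivative B)) = G A B := by
    have h5 : 3 * (derivative B) ^ 2 * dis A B +
      (2 * A ^ 2 * derivative A - 9 * B * derivative B) *
        (2 * A ^ 2 * derivative A + 9 * B * derivative B) = 4 * G A B := by
      unfold dis G
      ring
    rw [h5, ← mul_assoc, i4, one_mul]
  rw [← hG]
  exact (dvd_add (hv.mul_left _) (hE.mul_left _)).mul_left _

theorem natDegree_G_le {n : ℕ} {A B : F[X]} (hA : A.natDegree ≤ 4 * n + 1)
    (hB : B.natDegree ≤ 6 * n + 1) : (G A B).natDegree ≤ 24 * n + 4 := by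
  unfold G
  have h1 : (derivative A).natDegree ≤ 4 * n := by
    have := natDegree_derivative_le A
    omega
  have h2 : (derivative B).natDegree ≤ 6 * n := by
    have := natDegree_derivative_le B
    omega
  have h3 : (A ^ 3).natDegree ≤ 3 * (4 * n + 1) := natDegree_pow_le_of_le 3 hA
  have h4 : ((derivative B) ^ 2).natDegree ≤ 2 * (6 * n) := natDegree_pow_le_of_le 2 h2
  have h5 : ((derivative A) ^ 2).natDegree ≤ 2 * (4 * n) := natDegree_pow_le_of_le 2 h1
  have h6 : (3 * (derivative B) ^ 2).natDegree ≤ 0 + 2 * (6 * n) := by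
    apply natDegree_mul_le_of_le _ h4
    rw [natDegree_ofNat]
  have h7 : (A * (derivative A) ^ 2).natDegree ≤ 4 * n + 1 + 2 * (4 * n) :=
    natDegree_mul_le_of_le hA h5
  have h8 : (3 * (derivative B) ^ 2 + A * (derivative A) ^ 2).natDegree ≤ 12 * n + 1 := by
    refine (natDegree_add_le _ _).trans (max_le ?_ ?_)
    · omega
    · omega
  have h9 := natDegree_mul_le_of_le h3 h8
  omega

theorem card_large_le {n : ℕ} {f : F[X]} (hf : f ≠ 0) (hd : f.natDegree ≤ 24 * n + 4)
    (S : Finset F[X]) (hS : ∀ v ∈ S, v.Monic ∧ Irreducible v ∧ 2 * n < v.natDegree ∧ v ∣ f) :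
    S.card ≤ 11 := by
  have hprod : (∏ v ∈ S, v) ∣ f := by
    apply Finset.prod_dvd_of_coprime
    · intro v hv w hw hvw
      obtain ⟨hvm, hvi, _, _⟩ := hS v hv
      obtain ⟨hwm, hwi, _, _⟩ := hS w hw
      change IsCoprime v w
      rw [hvi.coprime_iff_not_dvd]
      intro hdvd
      have h1 : Associated v w := hvi.associated_of_dvd hwi hdvd
      exact hvw (eq_of_monic_of_associated hvm hwm h1)
    · intro v hv
      exact (hS v hv).2.2.2
  have h1 := natDegree_le_of_dvd hprod hf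
  rw [natDegree_prod_of_monic _ _ (fun v hv => (hS v hv).1)] at h1
  have h2 : S.card * (2 * n + 1) ≤ ∑ v ∈ S, v.natDegree := by
    rw [← smul_eq_mul]
    exact Finset.card_nsmul_le_sum _ _ _ fun v hv => (hS v hv).2.2.1
  by_contra hcon
  push Not at hcon
  have h3 : 12 * (2 * n + 1) ≤ S.card * (2 * n + 1) := Nat.mul_le_mul_right _ hcon
  omega

end Pool.Agent.Helper97.AS
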