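import Pool.Agent.Helper97.AS.OddOrd

/-!
# AS-05 GoodSum: the sum over the good pairs

Let `c` be a nonsquare of `F` (`FiniteField.exists_nonsquare`, characteristic `≠ 2`; `c ≠ 0`).
* `twist_mem_good`, `twist_mem_admS`: `dis (C (c ^ 2) A) (C (c ^ 3) B) = C (c ^ 6) dis A B`; multiplication by a nonzero constant does not change the degree nor squarefreeness
  (`Squarefree` of an associate), `C_mul_mem_PN`. `Const`: if `C (c ^ 2) A = C a d ^ 4`, `C (c ^ 3) B = C b d ^ 6` then `A = C (a / c ^ 2) d ^ 4`, `B = C (b / c ^ 3) d ^ 6`, and conversely.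
* `good_subset_admS`: if `(A, B) = (C a d ^ 4, C b d ^ 6)` then `dis A B = (C (4 a ^ 3) + C (27 b ^ 2)) d ^ 12`; squarefree implies that `d` is a unit (`Squarefree` and `d * d ∣ dis A B`), so `dis A B` has degree `0 < 12 n + 3`.
* `sum_good`: the map `p ↦ (C (c ^ 2) p.1, C (c ^ 3) p.2)` is a permutation of `good F n` (injective `good → good`, finite: `Finset.sum_bij` / `Finset.sum_nbij`; inverse with `c⁻¹`).
  So `2 ∑_{p ∈ good} fr (ord Q_p) = ∑_{p ∈ good} (fr (ord Q_p) + fr (ord Q_{p^c})) ≥ 5 card good` (`odd_ord_add`, `fr_add`).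
-/

set_option autoImplicit false

open Polynomial

namespace Pool.Agent.Helper97.AS

open Pool.Agent.Helper31.AR

variable {F : Type} [Field F] [Fintype F]

omit [Fintype F] in
theorem gs_dis_twist (c : F) (A B : F[X]) :
    dis (C (c ^ 2) * A) (C (c ^ 3) * B) = C (c ^ 6) * dis A B := by
  unfold dis
  simp only [C_pow]
  ring

theorem gs_mem_good {n : ℕ} {p : F[X] × F[X]} : p ∈ good F n ↔
    p.1 ∈ PN F (4 * n + 2) ∧ p.2 ∈ PN F (6 * n + 2) ∧ Squarefree (dis p.1 p.2) ∧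
      (dis p.1 p.2).natDegree = 12 * n + 3 := by
  classical
  unfold good box
  rw [Finset.mem_filter, Finset.mem_product]
  tauto

theorem twist_mem_good {c : F} (hc : c ≠ 0) {n : ℕ} {p : F[X] × F[X]} (hp : p ∈ good F n) :
    (C (c ^ 2) * p.1, C (c ^ 3) * p.2) ∈ good F n := by
  rw [gs_mem_good] at hp ⊢
  obtain ⟨h1, h2, h3, h4⟩ := hp
  have hu : IsUnit (C (c ^ 6) : F[X]) := isUnit_C.2 (pow_ne_zero 6 hc).isUnit
  refine ⟨C_mul_mem_PN _ h1, C_mul_mem_PN _ h2, ?_, ?_⟩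
  · show Squarefree (dis (C (c ^ 2) * p.1) (C (c ^ 3) * p.2))
    rw [gs_dis_twist]
    intro x hx
    exact h3 x ((hu.dvd_mul_left).1 hx)
  · show (dis (C (c ^ 2) * p.1) (C (c ^ 3) * p.2)).natDegree = 12 * n + 3
    rw [gs_dis_twist, natDegree_C_mul (pow_ne_zero 6 hc), h4]

theorem good_subset_admS (n : ℕ) : good F n ⊆ admS F n := by
  intro p hp
  rw [gs_mem_good] at hp
  obtain ⟨h1, h2, h3, h4⟩ := hp
  classical
  unfold admS box
  rw [Finset.mem_filter, Finset.mem_product]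
  refine ⟨⟨h1, h2⟩, ?_⟩
  rintro ⟨a, b, d, hA, hB⟩
  have h5 : dis p.1 p.2 = C (4 * a ^ 3 + 27 * b ^ 2) * d ^ 12 := by
    unfold dis
    rw [hA, hB]
    simp only [C_pow, C_add, C_mul]
    have e4 : (C (4 : F) : F[X]) = 4 := rfl
    have e27 : (C (27 : F) : F[X]) = 27 := rfl
    rw [e4, e27]
    ring
  have h6 : IsUnit d := by
    apply h3 d
    rw [h5]
    exact ⟨C (4 * a ^ 3 + 27 * b ^ 2) * d ^ 10, by ring⟩
  have h7 : (dis p.1 p.2).natDegree = 0 := by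
    rw [h5]
    refine Nat.le_zero.1 ((natDegree_C_mul_le _ _).trans ?_)
    rw [natDegree_pow, natDegree_eq_zero_of_isUnit h6, mul_zero]
  omega

theorem gs_sum_twist {c : F} (hc : c ≠ 0) (n : ℕ) (G : F[X] × F[X] → ℕ) :
    ∑ p ∈ good F n, G (C (c ^ 2) * p.1, C (c ^ 3) * p.2) = ∑ p ∈ good F n, G p := by
  have hc' : c⁻¹ ≠ 0 := inv_ne_zero hc
  have e2 : c ^ 2 * c⁻¹ ^ 2 = 1 := by field_simp
  have e3 : c ^ 3 * c⁻¹ ^ 3 = 1 := by field_simp
  refine Finset.sum_bij' (fun p _ => (C (c ^ 2) * p.1, C (c ^ 3) * p.2))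
    (fun p _ => (C (c⁻¹ ^ 2) * p.1, C (c⁻¹ ^ 3) * p.2)) ?_ ?_ ?_ ?_ ?_
  · intro p hp
    exact twist_mem_good hc hp
  · intro p hp
    exact twist_mem_good hc' hp
  · intro p hp
    refine Prod.ext ?_ ?_
    · show C (c⁻¹ ^ 2) * (C (c ^ 2) * p.1) = p.1
      rw [← mul_assoc, ← C_mul, mul_comm, mul_comm (c⁻¹ ^ 2), e2, C_1, mul_one]
    · show C (c⁻¹ ^ 3) * (C (c ^ 3) * p.2) = p.2
      rw [← mul_assoc, ← C_mul, mul_comm, mul_comm (c⁻¹ ^ 3), e3, C_1, mul_one]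
  · intro p hp
    refine Prod.ext ?_ ?_
    · show C (c ^ 2) * (C (c⁻¹ ^ 2) * p.1) = p.1
      rw [← mul_assoc, ← C_mul, e2, C_1, one_mul]
    · show C (c ^ 3) * (C (c⁻¹ ^ 3) * p.2) = p.2
      rw [← mul_assoc, ← C_mul, e3, C_1, one_mul]
  · intro p _
    rfl

theorem sum_good (h2 : (2 : F) ≠ 0) {n : ℕ} (Q : F[X] → F[X] → ℤ[X])
    (hQ : ∀ p ∈ admS F n, IsFrobS n p.1 p.2 (Q p.1 p.2)) :
    5 * (good F n).card ≤ 2 * ∑ p ∈ good F n, fr (ord F (Q p.1 p.2)) := by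
  have hchar : ringChar F ≠ 2 := by
    intro h
    apply h2
    have := ringChar.Nat.cast_ringChar (R := F)
    rw [h] at this
    exact_mod_cast this
  obtain ⟨c, hc⟩ := FiniteField.exists_nonsquare hchar
  have hc0 : c ≠ 0 := by
    rintro rfl
    exact hc ⟨0, by simp⟩
  have h := gs_sum_twist hc0 n (fun p => fr (ord F (Q p.1 p.2)))
  have h1 : 2 * ∑ p ∈ good F n, fr (ord F (Q p.1 p.2)) =
      ∑ p ∈ good F n, (fr (ord F (Q p.1 p.2)) +
        fr (ord F (Q (C (c ^ 2) * p.1) (C (c ^ 3) * p.2)))) := by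
    rw [Finset.sum_add_distrib, h, two_mul]
  rw [h1, mul_comm, ← smul_eq_mul, ← Finset.sum_const]
  refine Finset.sum_le_sum ?_
  intro p hp
  have hp' := twist_mem_good hc0 hp
  have hq := hQ p (good_subset_admS n hp)
  have hq' := hQ _ (good_subset_admS n hp')
  have hg := gs_mem_good.1 hp
  exact fr_add (odd_ord_add h2 hc hq hq' hg.2.2.1 hg.2.2.2)

end Pool.Agent.Helper97.AS
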