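import Pool.Agent.Helper31.AR.Link

/-!
# AS-08 IrrCount: the number of the monic irreducible polynomials

* `irr_mul_le`: let `L` be the extension of degree `m ≥ 1` of `F` (`exists_field`). Every monic irreducible `v` of degree `m` has exactly `m` different roots in `L` (it splits: `L` contains a root, `FiniteField` extensions are normal and separable; or: `v ∣ X ^ (q ^ m) - X`
  (Mathlib: `FiniteField.X_pow_card_sub_X...`, `Irreducible.dvd ...`), which splits over `L` into different linear factors), and different `v` have disjoint root sets (coprime). So `m * card ≤ card L = q ^ m`.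
  An alternative: the product of all the monic irreducible `v` of degree `m` divides `X ^ (q ^ m) - X` (pairwise coprime, each divides), compare degrees. See also `AR/DegPart.lean` for lemmas about `minpoly` and the `v`.
* `irr_two_le`: for `m = 2` moreover the `q` elements of `F` are not roots of the `v`: `2 card + q ≤ q ^ 2`.
-/

set_option autoImplicit false

open Polynomial

namespace Pool.Agent.Helper97.AS

open Pool.Agent.Helper31.AR

theorem irrCount_dvd {F : Type} [Field F] [Fintype F] {v : F[X]} (hv : Irreducible v) :
    v ∣ X ^ (Fintype.card F ^ v.natDegree) - X := by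
  haveI : Fact (Irreducible v) := ⟨hv⟩
  have hfin : FiniteDimensional F (AdjoinRoot v) := (AdjoinRoot.powerBasis hv.ne_zero).finite
  haveI : Finite (AdjoinRoot v) := Module.finite_of_finite F
  letI : Fintype (AdjoinRoot v) := Fintype.ofFinite _
  have hcard : Fintype.card (AdjoinRoot v) = Fintype.card F ^ v.natDegree := by
    rw [Module.card_eq_pow_finrank (K := F) (V := AdjoinRoot v),
      (AdjoinRoot.powerBasis hv.ne_zero).finrank, AdjoinRoot.powerBasis_dim]
  rw [← AdjoinRoot.mk_eq_zero, map_sub, map_pow, AdjoinRoot.mk_X, ← hcard,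
    FiniteField.pow_card, sub_self]

theorem irrCount_coprime {F : Type} [Field F] {v w : F[X]} (hv : v.Monic)
    (hw : w.Monic) (hvi : Irreducible v) (hwi : Irreducible w) (h : v ≠ w) : IsCoprime v w :=
  (hvi.coprime_iff_not_dvd).2 fun hd => h (Polynomial.eq_of_monic_of_associated hv hw
    (hvi.associated_of_dvd hwi hd))

theorem irrCount_le {F : Type} [Field F] [Fintype F] {m : ℕ} (hm : 1 ≤ m)
    (s : Finset F[X]) (hs : ∀ v ∈ s, v.Monic ∧ Irreducible v ∧ v ∣ X ^ (Fintype.card F ^ m) - X) :
    ∑ v ∈ s, v.natDegree ≤ Fintype.card F ^ m := by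
  have h1 : ∏ v ∈ s, v ∣ X ^ (Fintype.card F ^ m) - X := by
    refine Finset.prod_dvd_of_coprime ?_ ?_
    · intro v hv w hw hne
      exact irrCount_coprime (hs v hv).1 (hs w hw).1 (hs v hv).2.1 (hs w hw).2.1 hne
    · intro v hv
      exact (hs v hv).2.2
  have h2 := natDegree_le_of_dvd h1
    (FiniteField.X_pow_card_pow_sub_X_ne_zero F (by omega) Fintype.one_lt_card)
  rw [FiniteField.X_pow_card_pow_sub_X_natDegree_eq F (by omega) Fintype.one_lt_card,
    natDegree_prod_of_monic s _ fun v hv => (hs v hv).1] at h2
  exact h2

variable (F : Type) [Field F] [Fintype F]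

open Classical in
theorem irr_mul_le {m : ℕ} (hm : 1 ≤ m) :
    m * ((MN F m).filter (fun v => Irreducible v)).card ≤ Fintype.card F ^ m := by
  have h := irrCount_le hm ((MN F m).filter (fun v => Irreducible v)) (by
    intro v hv
    rw [Finset.mem_filter, mem_MN] at hv
    refine ⟨hv.1.1, hv.2, ?_⟩
    have h1 := irrCount_dvd hv.2
    rwa [hv.1.2] at h1)
  rw [Finset.sum_congr rfl (g := fun _ => m) (by
    intro v hv
    rw [Finset.mem_filter, mem_MN] at hv
    exact hv.1.2), Finset.sum_const, smul_eq_mul, mul_comm] at h
  exact h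

open Classical in
theorem irr_two_le :
    2 * ((MN F 2).filter (fun v => Irreducible v)).card + Fintype.card F ≤ Fintype.card F ^ 2 := by
  set s := (MN F 2).filter (fun v => Irreducible v) with hs
  set t := (Finset.univ : Finset F).image (fun a => (X - C a : F[X])) with ht
  have hdisj : Disjoint s t := by
    rw [Finset.disjoint_left]
    intro v hv hv'
    rw [hs, Finset.mem_filter, mem_MN] at hv
    rw [ht, Finset.mem_image] at hv'
    obtain ⟨a, -, rfl⟩ := hv'
    have := hv.1.2
    rw [natDegree_X_sub_C] at this
    omega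
  have h := irrCount_le (F := F) (m := 2) (by norm_num) (s ∪ t) (by
    intro v hv
    rw [Finset.mem_union] at hv
    rcases hv with hv | hv
    · rw [hs, Finset.mem_filter, mem_MN] at hv
      refine ⟨hv.1.1, hv.2, ?_⟩
      have h1 := irrCount_dvd hv.2
      rwa [hv.1.2] at h1
    · rw [ht, Finset.mem_image] at hv
      obtain ⟨a, -, rfl⟩ := hv
      refine ⟨monic_X_sub_C a, irreducible_X_sub_C a, ?_⟩
      rw [dvd_iff_isRoot, IsRoot.def, eval_sub, eval_pow, eval_X, FiniteField.pow_card_pow,
        sub_self])
  rw [Finset.sum_union hdisj] at h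
  have h1 : ∑ v ∈ s, v.natDegree = 2 * s.card := by
    rw [Finset.sum_congr rfl (g := fun _ => 2) (by
      intro v hv
      rw [hs, Finset.mem_filter, mem_MN] at hv
      exact hv.1.2), Finset.sum_const, smul_eq_mul, mul_comm]
  have h2 : ∑ v ∈ t, v.natDegree = Fintype.card F := by
    rw [ht, Finset.sum_image (by
      intro a _ b _ hab
      have h3 : (X - C a : F[X]) = X - C b := hab
      exact C_injective (sub_right_injective h3))]
    simp
  rw [h1, h2] at h
  exact h

end Pool.Agent.Helper97.AS
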