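import Pool.Agent.Helper97.AS.SolCount

/-!
# AS-07 LocalCount: the pairs with `v ^ 2 ∣ dis A B`, `deg v ≤ 2 n`

`v` monic irreducible of degree `d ≤ 2 n`, `M = v ^ 2` of degree `2 d ≤ 4 n`.
* `card_deg_residue_le`: for `r : F[X]` the number of `A ∈ PN F (N + 1)` with `natDegree A = N`, `M ∣ A - r` is at most `(q - 1) q ^ (N - deg M)` (`deg M ≤ N`, `1 ≤ N`): for each leading coefficient `z ≠ 0` (there are `q - 1`) the `A` are
  `z X ^ N + f`, `f ∈ PN F N`, `M ∣ f - (r - z X ^ N)`: `card_PN_residue_le`.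
* `local_count`: every pair `(A, B)` of the left side has the residues `(a, b) = (A %ₘ M, B %ₘ M) ∈ PN F (2 d) × PN F (2 d)` with `v ^ 2 ∣ dis a b` (`dis A B - dis a b` is divisible by `M`). For each of the residues there are at most
  `(q - 1) q ^ (4 n + 1 - 2 d)` polynomials `A` and `q ^ (6 n + 2 - 2 d)` polynomials `B` (`card_PN_residue_le`). So (`Finset.card_le_mul_card_image` or a sum over fibres) the number is at most
  `S (q - 1) q ^ (10 n + 3 - 4 d)`, `S + q ^ d ≤ 2 q ^ (2 d)` (`card_sol_le`). Multiply by `q ^ (3 d)`: `S q ^ (3 d) q ^ (10 n + 3 - 4 d) = S q ^ (10 n + 3 - d)` and `S ≤ (2 q ^ d - 1) q ^ d`.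
-/

set_option autoImplicit false

open Polynomial

namespace Pool.Agent.Helper97.AS

open Pool.Agent.Helper31.AR

variable {F : Type} [Field F] [Fintype F]

open Classical in
theorem card_deg_residue_le {M : F[X]} (hM : M.Monic) {N : ℕ} (hN : 1 ≤ N)
    (hMN : M.natDegree ≤ N) (r : F[X]) :
    ((PN F (N + 1)).filter (fun A => A.natDegree = N ∧ M ∣ A - r)).card ≤
      (Fintype.card F - 1) * Fintype.card F ^ (N - M.natDegree) := by
  have h1 : ∀ A ∈ (PN F (N + 1)).filter (fun A => A.natDegree = N ∧ M ∣ A - r),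
      A.coeff N ∈ Finset.univ.erase (0 : F) := by
    intro A hA
    rw [Finset.mem_filter] at hA
    rw [Finset.mem_erase]
    refine ⟨?_, Finset.mem_univ _⟩
    intro h0
    have h2 : A ≠ 0 := by
      rintro rfl
      have h3 := hA.2.1
      rw [natDegree_zero] at h3
      omega
    apply h2
    rw [← leadingCoeff_eq_zero, leadingCoeff, hA.2.1]
    exact h0
  rw [Finset.card_eq_sum_card_fiberwise h1]
  refine (Finset.sum_le_card_nsmul _ _ (Fintype.card F ^ (N - M.natDegree)) ?_).trans ?_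
  · intro z _
    refine card_class_le hM N _ ?_ ?_
    · intro k hk k' hk'
      rw [Finset.mem_filter, Finset.mem_filter] at hk hk'
      have h2 : k - k' = (k - r) - (k' - r) := by ring
      rw [h2]
      exact dvd_sub hk.1.2.2 hk'.1.2.2
    · intro k hk k' hk'
      rw [Finset.mem_filter, Finset.mem_filter] at hk hk'
      have h2 : k - k' ∈ PN F (N + 1) := sub_mem_PN hk.1.1 hk'.1.1
      have h3 : (k - k').coeff N = 0 := by
        rw [coeff_sub, hk.2, hk'.2, sub_self]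
      rw [mem_PN] at h2 ⊢
      rw [degree_lt_iff_coeff_zero] at h2 ⊢
      intro m hm
      rcases Nat.eq_or_lt_of_le hm with h4 | h4
      · rw [← h4]
        exact h3
      · exact h2 m h4
  · rw [Finset.card_erase_of_mem (Finset.mem_univ _), Finset.card_univ, smul_eq_mul]

open Classical in
theorem local_count (h2 : (2 : F) ≠ 0) (h3 : (3 : F) ≠ 0) {n : ℕ} {v : F[X]} (hv : v.Monic)
    (hirr : Irreducible v) (hd : v.natDegree ≤ 2 * n) :
    ((box F n).filter (fun p => p.1.natDegree = 4 * n + 1 ∧ v ^ 2 ∣ dis p.1 p.2)).card *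
        Fintype.card F ^ (3 * v.natDegree) ≤
      (2 * Fintype.card F ^ v.natDegree - 1) * ((Fintype.card F - 1) *
        Fintype.card F ^ (10 * n + 3)) := by
  have hM : (v ^ 2).Monic := hv.pow 2
  have hMd : (v ^ 2).natDegree = 2 * v.natDegree := hv.natDegree_pow 2
  set d := v.natDegree with hddef
  set q := Fintype.card F with hq
  have hq1 : 1 ≤ q := Fintype.card_pos
  set S := (box F n).filter (fun p => p.1.natDegree = 4 * n + 1 ∧ v ^ 2 ∣ dis p.1 p.2) with hS
  set T := (PN F (2 * d) ×ˢ PN F (2 * d)).filter (fun p => v ^ 2 ∣ dis p.1 p.2) with hT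
  have hTc : T.card + q ^ d ≤ 2 * q ^ (2 * d) := card_sol_le h2 h3 hv hirr
  have hmod : ∀ f : F[X], f %ₘ (v ^ 2) ∈ PN F (2 * d) := by
    intro f
    rw [mem_PN, ← hMd, ← degree_eq_natDegree hM.ne_zero]
    exact degree_modByMonic_lt f hM
  have hdvd : ∀ f : F[X], v ^ 2 ∣ f - f %ₘ (v ^ 2) := by
    intro f
    refine ⟨f /ₘ (v ^ 2), ?_⟩
    have h4 := modByMonic_add_div f (v ^ 2)
    linear_combination -h4
  have hmap : ∀ p ∈ S, (p.1 %ₘ (v ^ 2), p.2 %ₘ (v ^ 2)) ∈ T := by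
    intro p hp
    rw [hS, Finset.mem_filter] at hp
    rw [hT, Finset.mem_filter, Finset.mem_product]
    refine ⟨⟨hmod _, hmod _⟩, ?_⟩
    have h4 : dis (p.1 %ₘ (v ^ 2)) (p.2 %ₘ (v ^ 2)) = dis p.1 p.2 -
        ((p.1 - p.1 %ₘ (v ^ 2)) * (4 * (p.1 ^ 2 + p.1 * (p.1 %ₘ (v ^ 2)) +
          (p.1 %ₘ (v ^ 2)) ^ 2)) +
        (p.2 - p.2 %ₘ (v ^ 2)) * (27 * (p.2 + p.2 %ₘ (v ^ 2)))) := by
      unfold dis
      ring
    show v ^ 2 ∣ dis (p.1 %ₘ (v ^ 2)) (p.2 %ₘ (v ^ 2))
    rw [h4]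
    exact dvd_sub hp.2.2 (dvd_add ((hdvd _).mul_right _) ((hdvd _).mul_right _))
  have hcard : S.card ≤ T.card * ((q - 1) * q ^ (4 * n + 1 - 2 * d) * q ^ (6 * n + 2 - 2 * d)) := by
    rw [Finset.card_eq_sum_card_fiberwise hmap]
    refine (Finset.sum_le_card_nsmul _ _
      ((q - 1) * q ^ (4 * n + 1 - 2 * d) * q ^ (6 * n + 2 - 2 * d)) ?_).trans ?_
    · intro t _
      have h4 : S.filter (fun p => (p.1 %ₘ (v ^ 2), p.2 %ₘ (v ^ 2)) = t) ⊆
          ((PN F (4 * n + 1 + 1)).filter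
            (fun A => A.natDegree = 4 * n + 1 ∧ v ^ 2 ∣ A - t.1)) ×ˢ
          ((PN F (6 * n + 2)).filter (fun B => v ^ 2 ∣ B - t.2)) := by
        intro p hp
        rw [Finset.mem_filter, hS, Finset.mem_filter, box, Finset.mem_product] at hp
        obtain ⟨⟨⟨hp1, hp2⟩, hp3, hp4⟩, hp5⟩ := hp
        rw [Finset.mem_product, Finset.mem_filter, Finset.mem_filter, ← hp5]
        exact ⟨⟨hp1, hp3, hdvd _⟩, hp2, hdvd _⟩
      refine (Finset.card_le_card h4).trans ?_
      rw [Finset.card_product]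
      refine Nat.mul_le_mul ?_ ?_
      · have h5 := card_deg_residue_le hM (N := 4 * n + 1) (by omega) (by rw [hMd]; omega) t.1
        rw [hMd] at h5
        exact h5
      · have h5 := card_PN_residue_le hM (6 * n + 2) t.2
        rw [hMd] at h5
        exact h5
    · rw [smul_eq_mul]
  have hq2 : 1 ≤ q ^ d := Nat.one_le_pow _ _ hq1
  have hT2 : T.card ≤ (2 * q ^ d - 1) * q ^ d := by
    have h4 : (2 * q ^ d - 1) * q ^ d = 2 * q ^ (2 * d) - q ^ d := by
      rw [Nat.sub_mul, one_mul, two_mul d, pow_add, mul_assoc]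
    rw [h4]
    omega
  calc S.card * q ^ (3 * d)
      ≤ T.card * ((q - 1) * q ^ (4 * n + 1 - 2 * d) * q ^ (6 * n + 2 - 2 * d)) * q ^ (3 * d) :=
        Nat.mul_le_mul_right _ hcard
    _ ≤ ((2 * q ^ d - 1) * q ^ d) * ((q - 1) * q ^ (4 * n + 1 - 2 * d) *
          q ^ (6 * n + 2 - 2 * d)) * q ^ (3 * d) :=
        Nat.mul_le_mul_right _ (Nat.mul_le_mul_right _ hT2)
    _ = (2 * q ^ d - 1) * ((q - 1) * (q ^ d * q ^ (4 * n + 1 - 2 * d) *
          q ^ (6 * n + 2 - 2 * d) * q ^ (3 * d))) := by ring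
    _ = (2 * q ^ d - 1) * ((q - 1) * q ^ (10 * n + 3)) := by
        rw [← pow_add, ← pow_add, ← pow_add]
        congr 3
        omega

end Pool.Agent.Helper97.AS
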