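import Mathlib

/-!
# AS-01 RootParity: the parity of the degree (Mathlib only)

`R` = the multiset of the complex roots of `Q` (`Q.map (Int.castRingHom ℂ)`), `card R = natDegree Q`. `R` is invariant under complex
conjugation: `(Q.map (Int.castRingHom ℂ)).map (starRingEnd ℂ) = Q.map (Int.castRingHom ℂ)` and `Polynomial.roots_map` (or: multiplicities, `Polynomial.eq_rootMultiplicity_map`
for the injective ring homomorphism `starRingEnd ℂ`). So `count b R = count (conj b) R`. `card R = ∑_{b ∈ R.toFinset} count b R`. Modulo `2` the terms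
with `b ≠ conj b` cancel in pairs (`Finset.sum_involution` in `ZMod 2`); if `conj b = b` then `b` is real of absolute value `q`, so `b = q` or `b = - q` (different as `q > 0`).
`count (q : ℂ) R = rootMultiplicity (q : ℤ) Q` (`Polynomial.count_roots`, `Polynomial.eq_rootMultiplicity_map` with the injective `Int.castRingHom ℂ`), the same for `- q`.
-/

set_option autoImplicit false

open Polynomial

namespace Pool.Agent.Helper97.AS

theorem root_parity (Q : ℤ[X]) (hQ : Q.Monic) (q : ℕ) (hq : 0 < q)
    (h : ∀ b : ℂ, aeval b Q = 0 → ‖b‖ = q) :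
    Even (Q.natDegree + (Q.rootMultiplicity (q : ℤ) + Q.rootMultiplicity (-(q : ℤ)))) := by
  classical
  set P : ℂ[X] := Q.map (Int.castRingHom ℂ) with hP
  have hinj : Function.Injective (Int.castRingHom ℂ) := (Int.castRingHom ℂ).injective_int
  have hP0 : P ≠ 0 := (hQ.map (Int.castRingHom ℂ)).ne_zero
  have hdeg : P.natDegree = Q.natDegree := natDegree_map_eq_of_injective hinj Q
  have hcard : P.roots.card = Q.natDegree := by
    rw [← hdeg]
    exact (IsAlgClosed.splits P).natDegree_eq_card_roots.symm
  have hconj : P.map (starRingEnd ℂ) = P := by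
    rw [hP, map_map]
    congr 1
    ext x
    simp
  have hc : ∀ b : ℂ, P.roots.count ((starRingEnd ℂ) b) = P.roots.count b := by
    intro b
    rw [count_roots, count_roots, eq_rootMultiplicity_map (starRingEnd ℂ).injective b, hconj]
  have hm : ∀ a : ℤ, Q.rootMultiplicity a = P.roots.count (a : ℂ) := by
    intro a
    rw [count_roots, hP]
    exact eq_rootMultiplicity_map hinj a
  have hnorm : ∀ b ∈ P.roots, ‖b‖ = q := by
    intro b hb
    apply h
    rw [mem_roots hP0, IsRoot.def, hP, eval_map] at hb
    rw [aeval_def, ← hb]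
    rfl
  -- the sum of the multiplicities modulo two
  have hsum : ((P.roots.card : ℕ) : ZMod 2) = ∑ b ∈ P.roots.toFinset, (P.roots.count b : ZMod 2) := by
    rw [← Multiset.toFinset_sum_count_eq, Nat.cast_sum]
  have hsplit : ∑ b ∈ P.roots.toFinset, (P.roots.count b : ZMod 2) =
      ∑ b ∈ P.roots.toFinset.filter (fun b => (starRingEnd ℂ) b = b), (P.roots.count b : ZMod 2) := by
    rw [← Finset.sum_filter_add_sum_filter_not P.roots.toFinset (fun b => (starRingEnd ℂ) b = b)]
    rw [add_eq_left]
    refine Finset.sum_involution (fun b _ => (starRingEnd ℂ) b) ?_ ?_ ?_ ?_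
    · intro b _
      rw [hc]
      exact CharTwo.add_self_eq_zero _
    · intro b hb _
      exact (Finset.mem_filter.1 hb).2
    · intro b hb
      rw [Finset.mem_filter, Multiset.mem_toFinset] at hb ⊢
      refine ⟨?_, ?_⟩
      · rw [← Multiset.count_pos, hc, Multiset.count_pos]
        exact hb.1
      · intro h2
        apply hb.2
        rw [Complex.conj_conj] at h2
        exact h2.symm
    · intro b _
      exact Complex.conj_conj b
  have hne : (q : ℂ) ≠ -(q : ℂ) := by
    intro h2
    have h3 : (q : ℂ) = 0 := by
      have : (2 : ℂ) * q = 0 := by linear_combination h2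
      simpa using this
    have : q = 0 := by exact_mod_cast h3
    omega
  have htwo : ∑ b ∈ P.roots.toFinset.filter (fun b => (starRingEnd ℂ) b = b),
      (P.roots.count b : ZMod 2) = ∑ b ∈ ({(q : ℂ), -(q : ℂ)} : Finset ℂ), (P.roots.count b : ZMod 2) := by
    apply Finset.sum_subset
    · intro b hb
      rw [Finset.mem_filter, Multiset.mem_toFinset] at hb
      obtain ⟨r, hr⟩ := Complex.conj_eq_iff_real.1 hb.2
      have h2 := hnorm b hb.1
      rw [hr, Complex.norm_real, Real.norm_eq_abs] at h2
      rw [Finset.mem_insert, Finset.mem_singleton, hr]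
      rcases abs_eq (by positivity : (0 : ℝ) ≤ q) |>.1 h2 with h3 | h3
      · left
        rw [h3]
        norm_cast
      · right
        rw [h3]
        push_cast
        ring
    · intro b hb hb2
      have h3 : b ∉ P.roots := by
        intro h4
        apply hb2
        rw [Finset.mem_filter, Multiset.mem_toFinset]
        refine ⟨h4, ?_⟩
        rw [Finset.mem_insert, Finset.mem_singleton] at hb
        rcases hb with rfl | rfl
        · simp
        · simp
      rw [Multiset.count_eq_zero_of_notMem h3, Nat.cast_zero]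
  have hfin : ((Q.natDegree + (Q.rootMultiplicity (q : ℤ) + Q.rootMultiplicity (-(q : ℤ))) : ℕ) : ZMod 2) = 0 := by
    rw [Nat.cast_add, ← hcard, hsum, hsplit, htwo, Finset.sum_pair hne, hm, hm, Nat.cast_add]
    have h5 : (((q : ℕ) : ℤ) : ℂ) = (q : ℂ) := by norm_cast
    have h6 : ((-((q : ℕ) : ℤ) : ℤ) : ℂ) = -(q : ℂ) := by push_cast; ring
    rw [h5, h6]
    exact CharTwo.add_self_eq_zero _
  exact (ZMod.natCast_eq_zero_iff_even).1 hfin

end Pool.Agent.Helper97.AS
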