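import Pool.Agent.Helper97.AS.PowerEq
import Pool.Agent.Helper31.AR.Link

/-!
# AS-03 TwistOrd: the multiplicity of `q` for the constant quadratic twist

`c` a nonsquare of `F`. For every `m ≥ 1` take `L` with `card L = q ^ m` (`exists_field`). `card_points` for both pairs and the two hypotheses `card`: `powerSum Q m = TT L n A B` and
`powerSum Q' m = TT L n (C (c ^ 2) * A) (C (c ^ 3) * B)` in `ℂ` (cancel `q ^ (2 m) + q ^ m`). For `e = algebraMap F L c`: `cub L (e ^ 2 a) (e ^ 3 b) = chi L e ^ 3 * cub L a b`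
(substitute `x = e x'`, see `cub_twist` in `AR/OddZero.lean`), so `TT L n (C (c ^ 2) * A) (C (c ^ 3) * B) = chi L e ^ 3 * TT L n A B`. `chi L e = (-1) ^ m`: for odd `m` see
`AR/OddZero.lean` (`chi = -1`); for even `m = 2 k`: `e` is a square in `L`: `e ^ ((q ^ m - 1) / 2) = 1` since `(q ^ m - 1) / 2 = (q - 1) * (something)` for even `m` (`q` odd:
`(q ^ (2 k) - 1) / 2 = (q - 1) ((1 + q + ... + q ^ (2 k - 1)) / 2)` and the sum of the `2 k` odd numbers is even), `c ^ (q - 1) = 1`; `FiniteField.isSquare_iff` or `quadraticChar_eq_pow_of_char_ne_two'`.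
So `powerSum Q' m = (-1) ^ m powerSum Q m`, i.e. the multisets `roots Q'` and `(roots Q).map (- ·)` have the same power sums. `count_eq_of_powers` at `b = q ≠ 0`:
`count q (roots Q') = count q ((roots Q).map (- ·)) = count (- q) (roots Q)` (`Multiset.count_map_eq_count'`), and these are root multiplicities over `ℤ`
(`Polynomial.count_roots`, `Polynomial.eq_rootMultiplicity_map`).
-/

set_option autoImplicit false

open Polynomial

namespace Pool.Agent.Helper97.AS

open Pool.Agent.Helper31.AR

variable {F : Type} [Field F] [Fintype F]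

section

variable {L : Type} [Field L] [Fintype L] [Algebra F L]

theorem ordTwist_cub {e : L} (he : e ≠ 0) (a b : L) :
    cub L (e ^ 2 * a) (e ^ 3 * b) = chi L e ^ 3 * cub L a b := by
  unfold cub
  rw [← Equiv.sum_comp (Equiv.mulLeft₀ e he), Finset.mul_sum]
  apply Finset.sum_congr rfl
  intro x _
  have h1 : (Equiv.mulLeft₀ e he) x ^ 3 + e ^ 2 * a * (Equiv.mulLeft₀ e he) x + e ^ 3 * b =
      e ^ 3 * (x ^ 3 + a * x + b) := by
    show (e * x) ^ 3 + e ^ 2 * a * (e * x) + e ^ 3 * b = _
    ring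
  rw [h1]
  unfold chi
  rw [map_mul, map_pow]

theorem ordTwist_char (h2 : (2 : F) ≠ 0) : ringChar F ≠ 2 := by
  intro h
  apply h2
  have h1 := ringChar.spec F 2
  rw [h] at h1
  have h3 : ((2 : ℕ) : F) = 0 := h1.2 dvd_rfl
  exact_mod_cast h3

theorem ordTwist_chi (h2 : (2 : F) ≠ 0) {c : F} (hc : ¬ IsSquare c) {m : ℕ}
    (hL : Fintype.card L = Fintype.card F ^ m) : chi L (algebraMap F L c) = (-1) ^ m := by
  classical
  have hc0 : c ≠ 0 := by
    rintro rfl
    exact hc ⟨0, by ring⟩
  have he0 : algebraMap F L c ≠ 0 := by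
    rw [Ne, map_eq_zero]
    exact hc0
  have h2L : (2 : L) ≠ 0 := by
    intro h
    apply h2
    apply (algebraMap F L).injective
    rw [map_ofNat, map_zero]
    exact h
  rcases Nat.even_or_odd m with hm | hm
  · rw [hm.neg_one_pow]
    unfold chi
    rw [quadraticChar_one_iff_isSquare he0, FiniteField.isSquare_iff (ordTwist_char h2L) he0]
    have hodd : Odd (Fintype.card F) := by
      have := FiniteField.odd_card_of_char_ne_two (ordTwist_char h2)
      rwa [← Nat.odd_iff] at this
    obtain ⟨s, hs⟩ := hodd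
    obtain ⟨k, hk⟩ := hm
    obtain ⟨t, ht⟩ := Nat.sub_dvd_pow_sub_pow (Fintype.card F ^ 2) 1 k
    have h3 : Fintype.card F ^ 2 - 1 = 4 * (s * (s + 1)) := by
      rw [hs]
      have : (2 * s + 1) ^ 2 = 4 * (s * (s + 1)) + 1 := by ring
      omega
    have h4 : 1 ≤ (Fintype.card F ^ 2) ^ k := Nat.one_le_pow _ _ (by positivity)
    rw [one_pow, h3] at ht
    have h5 : Fintype.card L = 4 * (s * (s + 1)) * t + 1 := by
      rw [hL, hk, ← two_mul, pow_mul]
      omega
    have h6 : Fintype.card L / 2 = (Fintype.card F - 1) * ((s + 1) * t) := by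
      have h7 : Fintype.card F - 1 = 2 * s := by omega
      rw [h7, h5]
      have h8 : 4 * (s * (s + 1)) * t + 1 = 2 * (2 * s * ((s + 1) * t)) + 1 := by ring
      rw [h8]
      omega
    rw [h6, ← map_pow, pow_mul, FiniteField.pow_card_sub_one_eq_one c hc0, one_pow, map_one]
  · rw [hm.neg_one_pow]
    have hfr : Module.finrank F L = m := by
      have h1 : Fintype.card L = Fintype.card F ^ Module.finrank F L :=
        Module.card_eq_pow_finrank
      rw [hL] at h1
      exact (Nat.pow_right_injective (Fintype.one_lt_card (α := F)) h1).symm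
    have hns : ¬ IsSquare (algebraMap F L c) := by
      rintro ⟨y, hy⟩
      obtain ⟨k, hk⟩ := hm
      have h1 := congrArg (Algebra.norm F) hy
      rw [Algebra.norm_algebraMap, hfr, map_mul, hk] at h1
      apply hc
      refine ⟨Algebra.norm F y * (c ^ k)⁻¹, ?_⟩
      field_simp
      rw [← pow_mul]
      linear_combination h1
    unfold chi
    exact quadraticChar_neg_one_iff_not_isSquare.2 hns

theorem ordTwist_TT (h2 : (2 : F) ≠ 0) {c : F} (hc : ¬ IsSquare c) {m : ℕ}
    (hL : Fintype.card L = Fintype.card F ^ m) (n : ℕ) (A B : F[X]) :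
    TT L n (C (c ^ 2) * A) (C (c ^ 3) * B) = (-1) ^ m * TT L n A B := by
  have hc0 : c ≠ 0 := by
    rintro rfl
    exact hc ⟨0, by ring⟩
  have he0 : algebraMap F L c ≠ 0 := by
    rw [Ne, map_eq_zero]
    exact hc0
  have h3 : chi L (algebraMap F L c) ^ 3 = (-1) ^ m := by
    rw [ordTwist_chi h2 hc hL, ← pow_mul, mul_comm m 3, pow_mul]
    norm_num
  unfold TT
  rw [mul_add, Finset.mul_sum]
  congr 1
  · apply Finset.sum_congr rfl
    intro t _
    rw [map_mul, map_mul, aeval_C, aeval_C, map_pow, map_pow, ordTwist_cub he0, h3]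
  · rw [coeff_C_mul, coeff_C_mul, map_mul, map_mul, map_pow, map_pow, ordTwist_cub he0, h3]

end

theorem ordTwist_powerSum (h2 : (2 : F) ≠ 0) {c : F} (hc : ¬ IsSquare c) {n : ℕ} {A B : F[X]}
    {Q Q' : ℤ[X]} (h : IsFrob n A B Q) (h' : IsFrob n (C (c ^ 2) * A) (C (c ^ 3) * B) Q')
    {m : ℕ} (hm : 1 ≤ m) : powerSum Q' m = (-1) ^ m * powerSum Q m := by
  obtain ⟨L, _, _, _, hL⟩ := exists_field F m hm
  have key : ∀ (A B : F[X]) (Q : ℤ[X]), IsFrob n A B Q → powerSum Q m = (TT L n A B : ℂ) := by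
    intro A B Q h
    have h1 := h.card m hm
    have h3 := congrArg (Int.cast : ℤ → ℂ) (card_points h2 hm hL n A B)
    push_cast at h3
    rw [h3] at h1
    exact (add_left_cancel h1).symm
  rw [key _ _ _ h, key _ _ _ h', ordTwist_TT h2 hc hL]
  push_cast
  rfl

theorem ord_twist (h2 : (2 : F) ≠ 0) {c : F} (hc : ¬ IsSquare c) {n : ℕ} {A B : F[X]} {Q Q' : ℤ[X]}
    (h : IsFrob n A B Q) (h' : IsFrob n (C (c ^ 2) * A) (C (c ^ 3) * B) Q') :
    ord F Q' = Q.rootMultiplicity (-(Fintype.card F : ℤ)) := by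
  classical
  have hq : (Fintype.card F : ℂ) ≠ 0 := by
    exact_mod_cast Fintype.card_ne_zero
  have h1 := count_eq_of_powers (Q'.map (Int.castRingHom ℂ)).roots
    ((Q.map (Int.castRingHom ℂ)).roots.map (fun x => -x)) (fun m hm => by
      have h3 := ordTwist_powerSum h2 hc h h' hm
      unfold powerSum at h3
      rw [h3, Multiset.map_map, ← Multiset.sum_map_mul_left]
      congr 1
      apply Multiset.map_congr rfl
      intro x _
      show (-1) ^ m * x ^ m = (-x) ^ m
      rw [← mul_pow, neg_one_mul]) (Fintype.card F : ℂ) hq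
  have h4 : Multiset.count (Fintype.card F : ℂ)
      ((Q.map (Int.castRingHom ℂ)).roots.map (fun x => -x)) =
      Multiset.count (-(Fintype.card F : ℂ)) (Q.map (Int.castRingHom ℂ)).roots := by
    have h5 := Multiset.count_map_eq_count' (fun x : ℂ => -x) (Q.map (Int.castRingHom ℂ)).roots
      neg_injective (-(Fintype.card F : ℂ))
    rw [← h5]
    simp only [neg_neg]
  rw [h4, count_roots, count_roots] at h1
  have hinj : Function.Injective (Int.castRingHom ℂ) := RingHom.injective_int _
  have e1 := Polynomial.eq_rootMultiplicity_map (p := Q') hinj (Fintype.card F : ℤ)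
  have e2 := Polynomial.eq_rootMultiplicity_map (p := Q) hinj (-(Fintype.card F : ℤ))
  have e3 : (Int.castRingHom ℂ) (Fintype.card F : ℤ) = (Fintype.card F : ℂ) := by simp
  have e4 : (Int.castRingHom ℂ) (-(Fintype.card F : ℤ)) = -(Fintype.card F : ℂ) := by simp
  unfold ord
  rw [e1, e2, e3, e4, h1]

end Pool.Agent.Helper97.AS
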