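import Pool.Agent.Helper97.AS.Defs
import Pool.Agent.Helper97.AS.RootParity
import Pool.Agent.Helper97.AS.TwistOrd

/-!
# AS-04 OddOrd: for a good pair exactly one of the multiplicities of the pair and of its twist is odd (short)

`Q.natDegree = 12 n + 1`, all roots of absolute value `q`: `root_parity` gives `Even (12 n + 1 + (ord F Q + rootMultiplicity (- q) Q))`, so `ord F Q + rootMultiplicity (- q) Q` is odd,
and `ord F Q' = rootMultiplicity (- q) Q` (`ord_twist` at `n + 1`).

`fr_add`: if `r + r'` is odd then one of them is even, with `fr ≥ 2` (`fr 0 = 2`, otherwise the number itself is `≥ 2`), and the other is odd, with `fr ≥ 3` (`fr 1 = 3`, otherwise `≥ 3`).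
-/

set_option autoImplicit false

open Polynomial

namespace Pool.Agent.Helper97.AS

open Pool.Agent.Helper31.AR

variable {F : Type} [Field F] [Fintype F]

theorem odd_ord_add (h2 : (2 : F) ≠ 0) {c : F} (hc : ¬ IsSquare c) {n : ℕ} {A B : F[X]}
    {Q Q' : ℤ[X]} (h : IsFrobS n A B Q) (h' : IsFrobS n (C (c ^ 2) * A) (C (c ^ 3) * B) Q')
    (hsq : Squarefree (dis A B)) (hdeg : (dis A B).natDegree = 12 * n + 3) :
    Odd (ord F Q + ord F Q') := by
  have h1 := root_parity Q h.toIsFrob.monic (Fintype.card F) Fintype.card_pos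
    (h.norm_eq hsq hdeg)
  rw [h.natDegree_eq hsq hdeg, ← ord_twist h2 hc h.toIsFrob h'.toIsFrob] at h1
  have h3 : Q.rootMultiplicity (Fintype.card F : ℤ) = ord F Q := rfl
  rw [h3] at h1
  rw [Nat.odd_iff]
  rw [Nat.even_iff] at h1
  omega

theorem two_le_fr (r : ℕ) : 2 ≤ fr r := by
  unfold fr
  split_ifs <;> omega

theorem fr_add {r r' : ℕ} (h : Odd (r + r')) : 5 ≤ fr r + fr r' := by
  rw [Nat.odd_iff] at h
  unfold fr
  split_ifs <;> omega

end Pool.Agent.Helper97.AS
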