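import Mathlib

/-!
# AS-02 PowerEq: the power sums determine the nonzero elements of a multiset (Mathlib only)

Let `S = (M + N).toFinset.erase 0` and `c x = (count x M : ℂ) - count x N`. Then `∑_{x ∈ S} c x * x ^ m = 0` for all `m ≥ 1` (`Finset.sum_multiset_map_count`; the
element `0` contributes nothing). So `∑_{x ∈ S} (c x * x) * P.eval x = 0` for every polynomial `P` (linearity, `m = k + 1`). With the Lagrange basis
polynomial `P = ∏_{y ∈ S.erase b} (X - C y)`: `c b * b * P.eval b = 0`, `P.eval b ≠ 0`, so `c b = 0`. If `b ∉ S` both counts are `0`.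
-/

set_option autoImplicit false

open Polynomial

namespace Pool.Agent.Helper97.AS

private theorem sum_pow_count (M : Multiset ℂ) (T : Finset ℂ) (hT : M.toFinset ⊆ T) (m : ℕ) :
    (M.map (fun b => b ^ m)).sum = ∑ x ∈ T, (M.count x : ℂ) * x ^ m := by
  rw [Finset.sum_multiset_map_count]
  rw [Finset.sum_subset hT]
  · exact Finset.sum_congr rfl fun x _ => nsmul_eq_mul _ _
  · intro x _ hx
    rw [Multiset.mem_toFinset] at hx
    rw [Multiset.count_eq_zero_of_notMem hx, zero_smul]

theorem count_eq_of_powers (M N : Multiset ℂ)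
    (h : ∀ m : ℕ, 1 ≤ m → (M.map (fun b => b ^ m)).sum = (N.map (fun b => b ^ m)).sum) (b : ℂ)
    (hb : b ≠ 0) : M.count b = N.count b := by
  classical
  set T : Finset ℂ := (M + N).toFinset with hT
  have hM : M.toFinset ⊆ T := by
    intro x hx
    rw [hT, Multiset.mem_toFinset, Multiset.mem_add]
    exact Or.inl (Multiset.mem_toFinset.1 hx)
  have hN : N.toFinset ⊆ T := by
    intro x hx
    rw [hT, Multiset.mem_toFinset, Multiset.mem_add]
    exact Or.inr (Multiset.mem_toFinset.1 hx)
  by_cases hbT : b ∈ T
  · have h1 : ∀ P : ℂ[X], ∑ x ∈ T, (((M.count x : ℂ) - N.count x) * x) * P.eval x = 0 := by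
      intro P
      induction P using Polynomial.induction_on' with
      | add p q hp hq =>
        simp only [eval_add, mul_add]
        rw [Finset.sum_add_distrib, hp, hq, add_zero]
      | monomial k a =>
        have h2 := h (k + 1) (by omega)
        rw [sum_pow_count M T hM, sum_pow_count N T hN] at h2
        have h3 : ∑ x ∈ T, (((M.count x : ℂ) - N.count x) * x) * (monomial k a).eval x =
            a * (∑ x ∈ T, (M.count x : ℂ) * x ^ (k + 1) - ∑ x ∈ T, (N.count x : ℂ) * x ^ (k + 1)) := by
          rw [← Finset.sum_sub_distrib, Finset.mul_sum]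
          refine Finset.sum_congr rfl fun x _ => ?_
          rw [eval_monomial]
          ring
        rw [h3, h2, sub_self, mul_zero]
    have h2 := h1 (∏ y ∈ T.erase b, (X - C y))
    rw [Finset.sum_eq_single_of_mem b hbT] at h2
    · have h3 : (∏ y ∈ T.erase b, (X - C y)).eval b ≠ 0 := by
        rw [eval_prod, Finset.prod_ne_zero_iff]
        intro y hy
        rw [eval_sub, eval_X, eval_C, sub_ne_zero]
        exact (Finset.ne_of_mem_erase hy).symm
      have h4 : ((M.count b : ℂ) - N.count b) = 0 := by
        rcases mul_eq_zero.1 h2 with h5 | h5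
        · rcases mul_eq_zero.1 h5 with h6 | h6
          · exact h6
          · exact absurd h6 hb
        · exact absurd h5 h3
      exact_mod_cast sub_eq_zero.1 h4
    · intro x hx hxb
      have h3 : (∏ y ∈ T.erase b, (X - C y)).eval x = 0 := by
        rw [eval_prod]
        exact Finset.prod_eq_zero (Finset.mem_erase.2 ⟨hxb, hx⟩) (by simp)
      rw [h3, mul_zero]
  · have h1 : b ∉ M := fun hm => hbT (hM (Multiset.mem_toFinset.2 hm))
    have h2 : b ∉ N := fun hm => hbT (hN (Multiset.mem_toFinset.2 hm))
    rw [Multiset.count_eq_zero_of_notMem h1, Multiset.count_eq_zero_of_notMem h2]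

end Pool.Agent.Helper97.AS
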