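import Pool.Agent.Helper97.AS.Defs
import Pool.Agent.Helper31.AR.Residue

/-!
# AS-06 SolCount: the solutions of `4 a ^ 3 + 27 b ^ 2 = 0` modulo `v ^ 2`

`v` monic irreducible of degree `d`. Pairs `(a, b) ∈ PN F (2 d) × PN F (2 d)` with `v ^ 2 ∣ 4 a ^ 3 + 27 b ^ 2`.
* `v ∣ a`: then `v ∣ 27 b ^ 2`, `v ∣ b` (`27 = 3 ^ 3 ≠ 0` is a unit). So `a = v a'`, `b = v b'` with `a'`, `b' ∈ PN F d`: at most `q ^ d q ^ d` pairs.
* `v ∤ a`: let `a⁻` be an inverse of `2 a` modulo `v ^ 2` and `c` the remainder of `- 3 b a⁻` modulo `v ^ 2`: `2 a c ≡ - 3 b`. Then `4 a ^ 2 c ^ 2 ≡ 9 b ^ 2`, `12 a ^ 2 c ^ 2 ≡ 27 b ^ 2 ≡ - 4 a ^ 3`, so `- a ≡ 3 c ^ 2` (cancel `4 a ^ 2`), i.e.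
  `a ≡ - 3 c ^ 2`, and `3 b ≡ - 2 a c ≡ 6 c ^ 3`, `b ≡ 2 c ^ 3`. As `v ∤ a`, `v ∤ c`. So `(a, b)` is determined by `c ∈ PN F (2 d)`, `v ∤ c` (`a`, `b` are remainders): at most `q ^ (2 d) - q ^ d` pairs (the multiples of `v` in `PN F (2 d)` are
  `v c'`, `c' ∈ PN F d`: exactly `q ^ d` of them).
Total: `2 q ^ (2 d) - q ^ d`; written as `card + q ^ d ≤ 2 q ^ (2 d)`.
-/

set_option autoImplicit false

open Polynomial

namespace Pool.Agent.Helper97.AS

open Pool.Agent.Helper31.AR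

variable {F : Type} [Field F] [Fintype F]

theorem sc_mod_mem {M : F[X]} (hM : M.Monic) (f : F[X]) : f %ₘ M ∈ PN F M.natDegree := by
  rw [mem_PN, ← degree_eq_natDegree hM.ne_zero]
  exact degree_modByMonic_lt f hM

theorem sc_mod_eq {M : F[X]} (hM : M.Monic) {a f : F[X]} (ha : a ∈ PN F M.natDegree)
    (h : M ∣ a - f) : f %ₘ M = a := by
  obtain ⟨c, hc⟩ := h
  rw [mem_PN, ← degree_eq_natDegree hM.ne_zero] at ha
  exact (div_modByMonic_unique (-c) a hM ⟨by linear_combination hc, ha⟩).2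

theorem sc_mul_mem {v : F[X]} (hv : v.Monic) {b : F[X]} :
    v * b ∈ PN F (2 * v.natDegree) ↔ b ∈ PN F v.natDegree := by
  by_cases hb : b = 0
  · rw [hb, mul_zero]
    exact ⟨fun _ => zero_mem_PN _, fun _ => zero_mem_PN _⟩
  · rw [mem_PN, mem_PN, ← natDegree_lt_iff_degree_lt hb,
      ← natDegree_lt_iff_degree_lt (mul_ne_zero hv.ne_zero hb), hv.natDegree_mul' hb]
    omega

open Classical in
theorem sc_first (v : F[X]) (hv : v.Monic) (p : F[X] × F[X] → Prop) [DecidablePred p]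
    (hp : ∀ x, p x → v ∣ x.1 ∧ v ∣ x.2) :
    ((PN F (2 * v.natDegree) ×ˢ PN F (2 * v.natDegree)).filter p).card ≤
      Fintype.card F ^ (2 * v.natDegree) := by
  have h1 : (PN F (2 * v.natDegree) ×ˢ PN F (2 * v.natDegree)).filter p ⊆
      (PN F v.natDegree ×ˢ PN F v.natDegree).image (fun x => (v * x.1, v * x.2)) := by
    rintro ⟨a, b⟩ hx
    rw [Finset.mem_filter, Finset.mem_product] at hx
    obtain ⟨⟨ha, hb⟩, hx⟩ := hx
    obtain ⟨⟨a', ha'⟩, ⟨b', hb'⟩⟩ := hp _ hx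
    simp only at ha hb ha' hb'
    rw [ha', sc_mul_mem hv] at ha
    rw [hb', sc_mul_mem hv] at hb
    rw [Finset.mem_image]
    exact ⟨(a', b'), Finset.mem_product.mpr ⟨ha, hb⟩, by rw [ha', hb']⟩
  refine (Finset.card_le_card h1).trans (Finset.card_image_le.trans ?_)
  rw [Finset.card_product, card_PN, ← pow_add, two_mul]

open Classical in
theorem sc_second (v : F[X]) (hv : v.Monic) :
    ((PN F (2 * v.natDegree)).filter (fun c => ¬ v ∣ c)).card + Fintype.card F ^ v.natDegree ≤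
      Fintype.card F ^ (2 * v.natDegree) := by
  have h1 : (PN F v.natDegree).image (fun c => v * c) ⊆
      (PN F (2 * v.natDegree)).filter (fun c => v ∣ c) := by
    intro c hc
    rw [Finset.mem_image] at hc
    obtain ⟨c', hc', rfl⟩ := hc
    rw [Finset.mem_filter]
    exact ⟨(sc_mul_mem hv).mpr hc', dvd_mul_right _ _⟩
  have h2 := Finset.card_le_card h1
  rw [Finset.card_image_of_injective _ (mul_right_injective₀ hv.ne_zero), card_PN] at h2
  have h3 := Finset.card_filter_add_card_filter_not (s := PN F (2 * v.natDegree)) (fun c => v ∣ c)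
  rw [card_PN] at h3
  omega

theorem sc_key (h2 : (2 : F) ≠ 0) (h3 : (3 : F) ≠ 0) {v : F[X]} (hv : v.Monic)
    (hirr : Irreducible v) {a b : F[X]} (hab : v ^ 2 ∣ dis a b) (hva : ¬ v ∣ a) :
    ∃ c, c ∈ PN F (2 * v.natDegree) ∧ ¬ v ∣ c ∧ v ^ 2 ∣ a - (-(3 * c ^ 2)) ∧
      v ^ 2 ∣ b - 2 * c ^ 3 := by
  have u2 : IsUnit (2 : F[X]) := by
    have : (2 : F[X]) = C 2 := (map_ofNat C 2).symm
    rw [this]
    exact isUnit_C.mpr h2.isUnit
  have u3 : IsUnit (3 : F[X]) := by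
    have : (3 : F[X]) = C 3 := (map_ofNat C 3).symm
    rw [this]
    exact isUnit_C.mpr h3.isUnit
  have hcop : IsCoprime a v := ((hirr.coprime_iff_not_dvd).mpr hva).symm
  have hcop2 : IsCoprime (2 * a) (v ^ 2) := by
    refine IsCoprime.pow_right ?_
    exact (isCoprime_mul_unit_left_left u2 a v).mpr hcop
  have hcop4 : IsCoprime (v ^ 2) ((2 * a) ^ 2) := (IsCoprime.pow_left hcop2).symm
  obtain ⟨u, w, huw⟩ := hcop2
  have hvm : (v ^ 2).Monic := hv.pow 2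
  have hdeg : (v ^ 2).natDegree = 2 * v.natDegree := natDegree_pow v 2
  obtain ⟨c, hc⟩ : ∃ c, c = (-(3 * b * u)) %ₘ (v ^ 2) := ⟨_, rfl⟩
  have hcm : c ∈ PN F (2 * v.natDegree) := by
    rw [← hdeg, hc]
    exact sc_mod_mem hvm _
  have hc1 : v ^ 2 ∣ c + 3 * b * u := by
    refine ⟨-((-(3 * b * u)) /ₘ (v ^ 2)), ?_⟩
    have := modByMonic_add_div (-(3 * b * u)) (v ^ 2)
    rw [← hc] at this
    linear_combination this
  have hc2 : v ^ 2 ∣ 2 * a * c + 3 * b := by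
    have e1 : 2 * a * c + 3 * b = 2 * a * (c + 3 * b * u) + v ^ 2 * (3 * b * w) := by
      linear_combination (-3 * b) * huw
    rw [e1]
    exact dvd_add (Dvd.dvd.mul_left hc1 _) (dvd_mul_right _ _)
  have hc3 : v ^ 2 ∣ a + 3 * c ^ 2 := by
    have e1 : v ^ 2 ∣ (2 * a) ^ 2 * (a + 3 * c ^ 2) := by
      have e2 : (2 * a) ^ 2 * (a + 3 * c ^ 2) =
          dis a b + 3 * (2 * a * c - 3 * b) * (2 * a * c + 3 * b) := by
        rw [dis]; ring
      rw [e2]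
      exact dvd_add hab (Dvd.dvd.mul_left hc2 _)
    exact hcop4.dvd_of_dvd_mul_left e1
  have hc4 : v ^ 2 ∣ b - 2 * c ^ 3 := by
    have e1 : v ^ 2 ∣ 3 * (b - 2 * c ^ 3) := by
      have e2 : 3 * (b - 2 * c ^ 3) = (2 * a * c + 3 * b) - 2 * c * (a + 3 * c ^ 2) := by ring
      rw [e2]
      exact dvd_sub hc2 (Dvd.dvd.mul_left hc3 _)
    exact (u3.dvd_mul_left).mp e1
  refine ⟨c, hcm, ?_, ?_, hc4⟩
  · intro hvc
    apply hva
    have e1 : v ∣ a + 3 * c ^ 2 := (dvd_pow_self v two_ne_zero).trans hc3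
    have e2 : v ∣ 3 * c ^ 2 := Dvd.dvd.mul_left (Dvd.dvd.pow hvc two_ne_zero) _
    exact (dvd_add_left e2).mp e1
  · rw [sub_neg_eq_add]
    exact hc3

open Classical in
theorem card_sol_le (h2 : (2 : F) ≠ 0) (h3 : (3 : F) ≠ 0) {v : F[X]} (hv : v.Monic)
    (hirr : Irreducible v) :
    ((PN F (2 * v.natDegree) ×ˢ PN F (2 * v.natDegree)).filter
      (fun p => v ^ 2 ∣ dis p.1 p.2)).card + Fintype.card F ^ v.natDegree ≤
      2 * Fintype.card F ^ (2 * v.natDegree) := by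
  have u27 : IsUnit (27 : F[X]) := by
    have : (27 : F[X]) = C (3 ^ 3) := by
      have h9 : (3 : F[X]) = C 3 := (map_ofNat C 3).symm
      rw [C_pow, ← h9]; norm_num
    rw [this]
    exact isUnit_C.mpr (pow_ne_zero _ h3).isUnit
  have hprime : Prime v := hirr.prime
  have hvm : (v ^ 2).Monic := hv.pow 2
  have hdeg : (v ^ 2).natDegree = 2 * v.natDegree := natDegree_pow v 2
  have e1 := Finset.card_filter_add_card_filter_not
    (s := (PN F (2 * v.natDegree) ×ˢ PN F (2 * v.natDegree)).filter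
      (fun p => v ^ 2 ∣ dis p.1 p.2)) (fun p => v ∣ p.1)
  rw [Finset.filter_filter, Finset.filter_filter] at e1
  have e2 : ((PN F (2 * v.natDegree) ×ˢ PN F (2 * v.natDegree)).filter
      (fun p => v ^ 2 ∣ dis p.1 p.2 ∧ v ∣ p.1)).card ≤ Fintype.card F ^ (2 * v.natDegree) := by
    refine sc_first v hv _ ?_
    rintro ⟨a, b⟩ ⟨hab, ha⟩
    simp only at hab ha
    refine ⟨ha, ?_⟩
    simp only
    have f1 : v ∣ dis a b := (dvd_pow_self v two_ne_zero).trans hab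
    have f2 : v ∣ 4 * a ^ 3 := Dvd.dvd.mul_left (Dvd.dvd.pow ha three_ne_zero) _
    rw [dis] at f1
    have f3 : v ∣ 27 * b ^ 2 := (dvd_add_right f2).mp f1
    have f4 : v ∣ b ^ 2 := (u27.dvd_mul_left).mp f3
    exact hprime.dvd_of_dvd_pow f4
  have e3 : ((PN F (2 * v.natDegree) ×ˢ PN F (2 * v.natDegree)).filter
      (fun p => v ^ 2 ∣ dis p.1 p.2 ∧ ¬ v ∣ p.1)).card ≤
      ((PN F (2 * v.natDegree)).filter (fun c => ¬ v ∣ c)).card := by
    have f1 : (PN F (2 * v.natDegree) ×ˢ PN F (2 * v.natDegree)).filter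
        (fun p => v ^ 2 ∣ dis p.1 p.2 ∧ ¬ v ∣ p.1) ⊆
        ((PN F (2 * v.natDegree)).filter (fun c => ¬ v ∣ c)).image
          (fun c => ((-(3 * c ^ 2)) %ₘ (v ^ 2), (2 * c ^ 3) %ₘ (v ^ 2))) := by
      rintro ⟨a, b⟩ hx
      rw [Finset.mem_filter, Finset.mem_product] at hx
      obtain ⟨⟨ha, hb⟩, hab, hva⟩ := hx
      simp only at ha hb hab hva
      obtain ⟨c, hc1, hc2, hc3, hc4⟩ := sc_key h2 h3 hv hirr hab hva
      rw [Finset.mem_image]
      refine ⟨c, Finset.mem_filter.mpr ⟨hc1, hc2⟩, ?_⟩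
      rw [sc_mod_eq hvm (by rw [hdeg]; exact ha) hc3, sc_mod_eq hvm (by rw [hdeg]; exact hb) hc4]
    exact (Finset.card_le_card f1).trans Finset.card_image_le
  have e4 := sc_second v hv
  omega

end Pool.Agent.Helper97.AS
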